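import Pool.Agent.H602R3.DHJ.Main

/-! Szemerédi's theorem for finite patterns in intervals, from the density Hales-Jewett theorem. -/

set_option autoImplicit false

open Finset

namespace Pool.Agent.X163.Ak

open Pool.Agent.H602R3.DHJ

theorem sum_line {q r : ℕ} (V : Fin r → Fin (q + 1) ⊕ Unit) (F : Fin (q + 1) → ℤ) :
    ∃ s : ℤ, ∀ a, ∑ i, F (ap V (fun _ => a) i) =
      s + (univ.filter (fun i => V i = Sum.inr ())).card * F a := by
  classical
  refine ⟨∑ i ∈ univ.filter (fun i => ¬ V i = Sum.inr ()), F (ap V (fun _ => 0) i), fun a => ?_⟩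
  rw [← sum_filter_add_sum_filter_not univ (fun i => V i = Sum.inr ()), add_comm]
  congr 1
  · refine sum_congr rfl fun i hi => ?_
    have h := (mem_filter.1 hi).2
    congr 1
    unfold ap
    rcases hV : V i with b | u
    · rfl
    · exact absurd (by rw [hV]) h
  · rw [sum_congr rfl (g := fun _ => F a)]
    · rw [sum_const, nsmul_eq_mul]
    · intro i hi
      have h := (mem_filter.1 hi).2
      congr 1
      unfold ap
      rw [h]
      rfl

/-- Szemerédi's theorem for the pattern `F` in intervals of length `k`. -/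
theorem szem (q : ℕ) (F : Fin (q + 1) → ℤ) (θ : ℝ) (hθ : 0 < θ) : ∃ k₀ : ℕ, ∀ k : ℕ, k₀ ≤ k →
    ∀ (s : ℤ) (E : Finset ℤ), E ⊆ Ico s (s + k) → θ * k < E.card →
      ∃ x m : ℤ, 1 ≤ m ∧ ∀ a, x + m * F a ∈ E := by
  classical
  obtain ⟨r, hr⟩ := dhj q (θ / 2) (by positivity)
  obtain ⟨v, hv⟩ : ∃ v : (Fin r → Fin (q + 1)) → ℤ, v = fun u => ∑ i, F (u i) := ⟨_, rfl⟩
  obtain ⟨M, hM⟩ : ∃ M : ℕ, ∀ u, |v u| ≤ M := by
    refine ⟨∑ u, (v u).natAbs, fun u => ?_⟩
    rw [Int.abs_eq_natAbs]
    exact_mod_cast single_le_sum (f := fun u => (v u).natAbs) (fun _ _ => Nat.zero_le _)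
      (mem_univ u)
  refine ⟨2 * M + 1, fun k hk s E hE hcard => ?_⟩
  obtain ⟨X, hX⟩ : ∃ X : Finset ℤ, X = Ico (s - M) (s + k + M) := ⟨_, rfl⟩
  have hXc : (X.card : ℝ) = k + 2 * M := by
    rw [hX, Int.card_Ico]
    have h3 : ((s + k + M - (s - M)).toNat : ℤ) = s + k + M - (s - M) :=
      Int.toNat_of_nonneg (by omega)
    have h4 : (((s + k + M - (s - M)).toNat : ℤ) : ℝ) = ((s + k + M - (s - M) : ℤ) : ℝ) := by
      rw [h3]
    push_cast at h4
    linarith
  -- double counting
  have hdc : ∑ x ∈ X, (univ.filter (fun u => x + v u ∈ E)).card =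
      ∑ _u : Fin r → Fin (q + 1), E.card := by
    simp_rw [card_filter]
    rw [sum_comm]
    refine sum_congr rfl fun u _ => ?_
    rw [← card_filter]
    refine card_bij (fun x _ => x + v u) ?_ ?_ ?_
    · intro x hx
      exact (mem_filter.1 hx).2
    · intro x _ y _ h
      simpa using h
    · intro e he
      refine ⟨e - v u, ?_, by ring⟩
      rw [mem_filter, hX, mem_Ico]
      have h1 := hE he
      rw [mem_Ico] at h1
      have h2 := abs_le.1 (hM u)
      refine ⟨⟨by linarith [h2.2], by linarith [h2.1]⟩, ?_⟩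
      simpa using he
  have hcardW : (0 : ℝ) < Fintype.card (Fin r → Fin (q + 1)) := by
    exact_mod_cast Fintype.card_pos
  obtain ⟨x, hx⟩ : ∃ x, ((univ.filter (fun u => x + v u ∈ E)).card : ℝ) ≥
      θ / 2 * Fintype.card (Fin r → Fin (q + 1)) := by
    by_contra hno
    push Not at hno
    have h1 : ((∑ x ∈ X, (univ.filter (fun u => x + v u ∈ E)).card : ℕ) : ℝ) ≤
        ∑ x ∈ X, θ / 2 * Fintype.card (Fin r → Fin (q + 1)) := by
      push_cast
      exact sum_le_sum fun x _ => (hno x).le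
    rw [hdc, sum_const, sum_const, card_univ, nsmul_eq_mul, nsmul_eq_mul, hXc] at h1
    push_cast at h1
    have hk' : (2 * (M : ℝ) + 1) ≤ k := by exact_mod_cast hk
    have h2 : ((k : ℝ) + 2 * M) * (θ / 2 * Fintype.card (Fin r → Fin (q + 1))) ≤
        (2 * k) * (θ / 2 * Fintype.card (Fin r → Fin (q + 1))) :=
      mul_le_mul_of_nonneg_right (by linarith) (by positivity)
    have h3 : (Fintype.card (Fin r → Fin (q + 1)) : ℝ) * (θ * k) <
        Fintype.card (Fin r → Fin (q + 1)) * E.card := mul_lt_mul_of_pos_left hcard hcardW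
    have h4 : ((Fintype.card (Fin r → Fin (q + 1)) : ℕ) : ℝ) * (E.card : ℝ) ≤
        ((k : ℝ) + 2 * M) * (θ / 2 * Fintype.card (Fin r → Fin (q + 1))) := by
      simpa using h1
    nlinarith
  -- a line
  have hdn : θ / 2 ≤ dn {u : Fin r → Fin (q + 1) | x + v u ∈ E} := by
    unfold dn av
    rw [le_div_iff₀ hcardW]
    refine hx.trans (le_of_eq ?_)
    rw [card_filter]
    push_cast
    refine sum_congr rfl fun u _ => ?_
    by_cases h : x + v u ∈ E
    · rw [if_pos h, Set.indicator_of_mem (by simpa using h)]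
    · rw [if_neg h, Set.indicator_of_notMem (by simpa using h)]
  have hnot : ¬ LFr {u : Fin r → Fin (q + 1) | x + v u ∈ E} := fun h =>
    absurd (hr _ h) (not_lt.2 hdn)
  unfold LFr at hnot
  push Not at hnot
  obtain ⟨V, hV, hline⟩ := hnot
  obtain ⟨s', hs'⟩ := sum_line V F
  refine ⟨x + s', (univ.filter (fun i => V i = Sum.inr ())).card, ?_, fun a => ?_⟩
  · obtain ⟨i, hi⟩ := hV ()
    have : 0 < (univ.filter (fun i => V i = Sum.inr ())).card :=
      card_pos.2 ⟨i, by simp [hi]⟩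
    exact_mod_cast this
  · have h1 := hline a
    simp only [Set.mem_ofPred_eq] at h1
    rw [hv] at h1
    simp only at h1
    rw [hs' a] at h1
    rw [add_assoc]
    exact h1

end Pool.Agent.X163.Ak
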