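import Pool.Agent.W814.BB.Slices

/-! Sums-differences inequalities and covering numbers of sets which contain progressions. -/

set_option autoImplicit false

open Finset

namespace Pool.Agent.X163.Ak

open Pool.Agent.W904.AK Pool.Agent.W814.BB

/-- a linear form which separates finitely many integer vectors -/
theorem sep_form {n : ℕ} (D : Finset (Fin n → ℤ)) :
    ∃ v : Fin n → ℤ, Set.InjOn (fun x : Fin n → ℤ => ∑ i, x i * v i) D := by
  classical
  obtain ⟨p, hp⟩ : ∃ p : (Fin n → ℤ) → (Fin n → ℤ) → Polynomial ℤ, ∀ x y, p x y =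
      ∑ i : Fin n, Polynomial.C (x i - y i) * Polynomial.X ^ (i : ℕ) := ⟨_, fun _ _ => rfl⟩
  have hne : ∀ x y, x ≠ y → p x y ≠ 0 := by
    intro x y hxy h0
    apply hxy
    ext i
    have h1 : (p x y).coeff (i : ℕ) = x i - y i := by
      rw [hp, Polynomial.finsetSum_coeff, Finset.sum_eq_single i]
      · rw [Polynomial.coeff_C_mul, Polynomial.coeff_X_pow, if_pos rfl, mul_one]
      · intro j _ hj
        rw [Polynomial.coeff_C_mul, Polynomial.coeff_X_pow, if_neg, mul_zero]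
        intro h
        exact hj (Fin.ext h.symm)
      · intro h; exact absurd (Finset.mem_univ i) h
    rw [h0, Polynomial.coeff_zero] at h1
    linarith
  obtain ⟨P, hP⟩ : ∃ P, P = ∏ z ∈ (D ×ˢ D).filter (fun z => z.1 ≠ z.2), p z.1 z.2 := ⟨_, rfl⟩
  have hP0 : P ≠ 0 := by
    rw [hP]
    exact Finset.prod_ne_zero_iff.2 fun z hz => hne _ _ (Finset.mem_filter.1 hz).2
  obtain ⟨L, hL⟩ : ∃ L : ℤ, P.eval L ≠ 0 := by
    by_contra hcon
    push Not at hcon
    exact hP0 (Polynomial.funext fun r => by rw [hcon r, Polynomial.eval_zero])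
  refine ⟨fun i => L ^ (i : ℕ), fun x hx y hy hxy => ?_⟩
  by_contra hne'
  apply hL
  rw [hP, Polynomial.eval_prod]
  refine Finset.prod_eq_zero (i := (x, y)) (Finset.mem_filter.2 ⟨Finset.mem_product.2 ⟨hx, hy⟩, hne'⟩) ?_
  rw [hp, Polynomial.eval_finsetSum]
  simp only [Polynomial.eval_mul, Polynomial.eval_C, Polynomial.eval_pow, Polynomial.eval_X]
  simp only at hxy
  have : ∑ i : Fin n, (x i - y i) * L ^ (i : ℕ) = ∑ i, x i * L ^ (i : ℕ) - ∑ i, y i * L ^ (i : ℕ) := by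
    rw [← Finset.sum_sub_distrib]
    exact Finset.sum_congr rfl fun i _ => by ring
  rw [this, hxy, sub_self]

/-- the slice bound for integer vectors -/
theorem slice_n {ms : Finset ℕ} {c : ℝ} (hc : 0 ≤ c) (hS : SliceBound ms c) {n : ℕ}
    (G : Finset ((Fin n → ℤ) × (Fin n → ℤ))) : ((G.image Prod.snd).card : ℝ) ≤
      ((ms.sup fun m => (G.image fun g => g.1 + (m : ℤ) • g.2).card : ℕ) : ℝ) ^ c := by
  classical
  obtain ⟨v, hv⟩ := sep_form (G.image Prod.snd)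
  obtain ⟨φ, hφ⟩ : ∃ φ : (Fin n → ℤ) → ℤ, ∀ x, φ x = ∑ i, x i * v i := ⟨_, fun _ => rfl⟩
  have hadd : ∀ (x y : Fin n → ℤ) (m : ℤ), φ (x + m • y) = φ x + m * φ y := by
    intro x y m
    rw [hφ, hφ, hφ, Finset.mul_sum, ← Finset.sum_add_distrib]
    refine Finset.sum_congr rfl fun i _ => ?_
    simp only [Pi.add_apply, Pi.smul_apply, smul_eq_mul]
    ring
  have h1 := hS (G.image fun g => (φ g.1, φ g.2))
  have h2 : ((G.image fun g => (φ g.1, φ g.2)).image Prod.snd).card = (G.image Prod.snd).card := by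
    have : (G.image fun g => (φ g.1, φ g.2)).image Prod.snd = (G.image Prod.snd).image φ := by
      rw [Finset.image_image, Finset.image_image]; rfl
    rw [this, Finset.card_image_of_injOn]
    intro x hx y hy hxy
    rw [hφ, hφ] at hxy
    exact hv hx hy hxy
  rw [h2] at h1
  refine h1.trans (Real.rpow_le_rpow (Nat.cast_nonneg _) ?_ hc)
  rw [Nat.cast_le]
  refine Finset.sup_mono_fun fun m _ => ?_
  have h3 : (G.image fun g => (φ g.1, φ g.2)).image (fun g => g.1 + (m : ℤ) * g.2) =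
      (G.image fun g => g.1 + (m : ℤ) • g.2).image φ := by
    rw [Finset.image_image, Finset.image_image]
    refine Finset.image_congr fun g _ => ?_
    simp only [Function.comp]
    rw [hadd]
  rw [h3]
  exact Finset.card_image_le

/-- the cube of side `δ` which contains the point -/
noncomputable def fl {n : ℕ} (δ : ℝ) (x : EuclideanSpace ℝ (Fin n)) : Fin n → ℤ := fun i => ⌊x i / δ⌋

theorem fl_prog {a r x δ : ℝ} (hδ : 0 < δ) {m : ℕ} (h : |a + m * r - x| < δ) :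
    ⌊a / δ⌋ + (m : ℤ) * ⌊r / δ⌋ ∈ Finset.Icc (⌊x / δ⌋ - 1 - m) (⌊x / δ⌋ + 1) := by
  obtain ⟨h1, h2⟩ := abs_lt.1 h
  have a1 := Int.floor_le (a / δ)
  have a2 := Int.lt_floor_add_one (a / δ)
  have r1 := Int.floor_le (r / δ)
  have r2 := Int.lt_floor_add_one (r / δ)
  have x1 := Int.floor_le (x / δ)
  have x2 := Int.lt_floor_add_one (x / δ)
  have e1 : (a + m * r) / δ = a / δ + m * (r / δ) := by field_simp
  have e2 : (a + m * r) / δ < x / δ + 1 := by
    rw [div_add_one hδ.ne', div_lt_div_iff_of_pos_right hδ]; linarith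
  have e3 : x / δ - 1 < (a + m * r) / δ := by
    rw [div_sub_one hδ.ne', div_lt_div_iff_of_pos_right hδ]; linarith
  have hm : (0:ℝ) ≤ m := Nat.cast_nonneg m
  rw [e1] at e2 e3
  have r3 : (m : ℝ) * ⌊r / δ⌋ ≤ m * (r / δ) := mul_le_mul_of_nonneg_left r1 hm
  have r4 : (m : ℝ) * (r / δ) ≤ m * (⌊r / δ⌋ + 1) := mul_le_mul_of_nonneg_left r2.le hm
  rw [Finset.mem_Icc]
  constructor
  · have : ((⌊x / δ⌋ - 1 - m - 1 : ℤ) : ℝ) < ((⌊a / δ⌋ + (m : ℤ) * ⌊r / δ⌋ : ℤ) : ℝ) := by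
      push_cast; linarith
    have := Int.cast_lt.1 this
    omega
  · have : ((⌊a / δ⌋ + (m : ℤ) * ⌊r / δ⌋ : ℤ) : ℝ) < ((⌊x / δ⌋ + 1 + 1 : ℤ) : ℝ) := by
      push_cast; linarith
    have := Int.cast_lt.1 this
    omega

/-- differences at one scale -/
theorem mink {ms : Finset ℕ} {c : ℝ} (hc : 0 ≤ c) (hS : SliceBound ms c) {k : ℕ}
    (hk : ∀ m ∈ ms, m < k) {n : ℕ} {R B : Set (EuclideanSpace ℝ (Fin n))}
    (hB : ∀ r ∈ R, ∃ a : EuclideanSpace ℝ (Fin n), ∀ j : ℕ, j < k → a + (j : ℝ) • r ∈ B) {δ : ℝ}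
    (hδ : 0 < δ) (P : Finset (EuclideanSpace ℝ (Fin n))) (hcov : B ⊆ ⋃ x ∈ P, Metric.ball x δ)
    (D : Finset (Fin n → ℤ)) (hD : ∀ d ∈ D, ∃ r ∈ R, fl δ r = d) :
    (D.card : ℝ) ≤ (((k + 2) ^ n * P.card : ℕ) : ℝ) ^ c := by
  classical
  have h1 : ∀ d : Fin n → ℤ, ∃ a r : EuclideanSpace ℝ (Fin n), d ∈ D → fl δ r = d ∧
      ∀ j : ℕ, j < k → a + (j : ℝ) • r ∈ B := by
    intro d
    by_cases hd : d ∈ D
    · obtain ⟨r, hr, hrd⟩ := hD d hd
      obtain ⟨a, ha⟩ := hB r hr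
      exact ⟨a, r, fun _ => ⟨hrd, ha⟩⟩
    · exact ⟨0, 0, fun h => absurd h hd⟩
  choose a r har using h1
  obtain ⟨G, hG⟩ : ∃ G : Finset ((Fin n → ℤ) × (Fin n → ℤ)), G = D.image fun d => (fl δ (a d), d) :=
    ⟨_, rfl⟩
  have hGs : (G.image Prod.snd).card = D.card := by
    rw [hG, Finset.image_image]
    have : (Prod.snd ∘ fun d : Fin n → ℤ => (fl δ (a d), d)) = id := rfl
    rw [this, Finset.image_id]
  have h2 := slice_n hc hS G
  rw [hGs] at h2
  refine h2.trans (Real.rpow_le_rpow (Nat.cast_nonneg _) ?_ hc)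
  rw [Nat.cast_le]
  refine Finset.sup_le fun m hm => ?_
  have hmk := hk m hm
  have hsub : (G.image fun g => g.1 + (m : ℤ) • g.2) ⊆ P.biUnion fun x =>
      Fintype.piFinset fun i => Finset.Icc (⌊x i / δ⌋ - 1 - m) (⌊x i / δ⌋ + 1) := by
    intro z hz
    obtain ⟨g, hg, rfl⟩ := Finset.mem_image.1 hz
    rw [hG] at hg
    obtain ⟨d, hd, rfl⟩ := Finset.mem_image.1 hg
    obtain ⟨e1, e2⟩ := har d hd
    have e3 := hcov (e2 m hmk)
    simp only [Set.mem_iUnion, Metric.mem_ball, exists_prop] at e3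
    obtain ⟨x, hx, hxd⟩ := e3
    refine Finset.mem_biUnion.2 ⟨x, hx, ?_⟩
    rw [Fintype.mem_piFinset]
    intro i
    have e4 : |(a d) i + m * (r d) i - x i| < δ := by
      refine lt_of_le_of_lt ?_ hxd
      rw [dist_eq_norm]
      have := PiLp.norm_apply_le (a d + (m : ℝ) • r d - x) i
      rw [Real.norm_eq_abs] at this
      exact this
    have e5 := fl_prog hδ e4
    have e6 : (fl δ (a d) + (m : ℤ) • d) i = ⌊(a d) i / δ⌋ + (m : ℤ) * ⌊(r d) i / δ⌋ := by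
      have : d i = ⌊(r d) i / δ⌋ := (congrFun e1 i).symm
      rw [Pi.add_apply, Pi.smul_apply, smul_eq_mul, this]; rfl
    rw [e6]
    exact e5
  refine (Finset.card_le_card hsub).trans (Finset.card_biUnion_le.trans ?_)
  refine (Finset.sum_le_card_nsmul _ _ ((k + 2) ^ n) fun x _ => ?_).trans (le_of_eq ?_)
  · rw [Fintype.card_piFinset]
    refine (Finset.prod_le_pow_card _ _ (k + 2) fun i _ => ?_).trans (le_of_eq ?_)
    · rw [Int.card_Icc]; omega
    · rw [Finset.card_univ, Fintype.card_fin]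
  · rw [smul_eq_mul, Nat.mul_comm]

/-- covering numbers of the set of differences -/
theorem mink_cover {ms : Finset ℕ} {c : ℝ} (hc : 0 ≤ c) (hS : SliceBound ms c) {k : ℕ}
    (hk : ∀ m ∈ ms, m < k) {n : ℕ} {R B : Set (EuclideanSpace ℝ (Fin n))}
    (hB : ∀ r ∈ R, ∃ a : EuclideanSpace ℝ (Fin n), ∀ j : ℕ, j < k → a + (j : ℝ) • r ∈ B) {δ : ℝ}
    (hδ : 0 < δ) (P : Finset (EuclideanSpace ℝ (Fin n))) (hcov : B ⊆ ⋃ x ∈ P, Metric.ball x δ) :
    ∃ T : Finset (EuclideanSpace ℝ (Fin n)), R ⊆ (⋃ x ∈ T, Metric.ball x ((n + 1) * δ)) ∧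
      (T.card : ℝ) ≤ (((k + 2) ^ n * P.card : ℕ) : ℝ) ^ c := by
  classical
  have key := fun D hD => mink hc hS hk hB hδ P hcov D hD
  have hfin : (fl δ '' R).Finite := by
    by_contra hinf
    obtain ⟨N, hN⟩ := exists_nat_gt ((((k + 2) ^ n * P.card : ℕ) : ℝ) ^ c)
    obtain ⟨t, ht, hcard⟩ := Set.Infinite.exists_subset_card_eq hinf N
    have h1 := key t fun d hd => by
      obtain ⟨r, hr, hrd⟩ := ht hd
      exact ⟨r, hr, hrd⟩
    rw [hcard] at h1
    linarith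
  refine ⟨hfin.toFinset.image fun d => WithLp.toLp 2 fun i => δ * (d i : ℝ), fun r hr => ?_, ?_⟩
  · simp only [Set.mem_iUnion, Metric.mem_ball, exists_prop]
    refine ⟨_, Finset.mem_image.2 ⟨fl δ r, hfin.mem_toFinset.2 ⟨r, hr, rfl⟩, rfl⟩, ?_⟩
    rw [EuclideanSpace.dist_eq]
    have hi : ∀ i, dist (r i) (δ * ((fl δ r) i : ℝ)) ^ 2 ≤ δ ^ 2 := by
      intro i
      have h1 := Int.floor_le (r i / δ)
      have h2 := Int.lt_floor_add_one (r i / δ)
      rw [le_div_iff₀ hδ] at h1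
      rw [div_lt_iff₀ hδ] at h2
      rw [Real.dist_eq, sq_abs]
      have e : (fl δ r) i = ⌊r i / δ⌋ := rfl
      rw [e]
      refine pow_le_pow_left₀ (by linarith) (by linarith) 2
    refine lt_of_le_of_lt (Real.sqrt_le_sqrt (Finset.sum_le_sum fun i _ => hi i)) ?_
    rw [Finset.sum_const, Finset.card_univ, Fintype.card_fin, nsmul_eq_mul,
      Real.sqrt_lt' (by positivity)]
    have hn : (0:ℝ) ≤ n := Nat.cast_nonneg n
    nlinarith [sq_pos_of_pos hδ, mul_nonneg hn (sq_nonneg δ)]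
  · refine le_trans ?_ (key hfin.toFinset fun d hd => by
      obtain ⟨r, hr, hrd⟩ := hfin.mem_toFinset.1 hd
      exact ⟨r, hr, hrd⟩)
    exact_mod_cast Finset.card_image_le

/-- all the differences in the cube -/
theorem mink_cube {ms : Finset ℕ} {c : ℝ} (hc : 0 < c) (hS : SliceBound ms c) {k : ℕ}
    (hk : ∀ m ∈ ms, m < k) {n : ℕ} {B : Set (EuclideanSpace ℝ (Fin n))}
    (hB : ∀ r : EuclideanSpace ℝ (Fin n), (∀ i, r i ∈ Set.Icc (0 : ℝ) 1) →
      ∃ a : EuclideanSpace ℝ (Fin n), ∀ j : ℕ, j < k → a + (j : ℝ) • r ∈ B) {δ : ℝ}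
    (hδ : 0 < δ) (P : Finset (EuclideanSpace ℝ (Fin n))) (hcov : B ⊆ ⋃ x ∈ P, Metric.ball x δ) :
    δ ^ (-((n : ℝ) / c)) ≤ (k + 2 : ℝ) ^ n * P.card := by
  classical
  have key := mink hc.le hS hk (R := {r | ∀ i, r i ∈ Set.Icc (0 : ℝ) 1}) hB hδ P hcov
    (Fintype.piFinset fun _ => Finset.Icc (0 : ℤ) ⌊1 / δ⌋) (fun d hd => by
      rw [Fintype.mem_piFinset] at hd
      refine ⟨WithLp.toLp 2 fun i => δ * (d i : ℝ), fun i => ?_, ?_⟩
      · have h1 := Finset.mem_Icc.1 (hd i)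
        have h2 : (0:ℝ) ≤ d i := by exact_mod_cast h1.1
        have h3 : (d i : ℝ) ≤ 1 / δ := (Int.cast_le.2 h1.2).trans (Int.floor_le _)
        rw [le_div_iff₀ hδ] at h3
        constructor
        · simp only; positivity
        · simp only; linarith
      · ext i
        simp only [fl]
        rw [mul_div_cancel_left₀ _ hδ.ne', Int.floor_intCast])
  rw [Fintype.card_piFinset] at key
  simp only [Finset.prod_const, Finset.card_univ, Fintype.card_fin, Int.card_Icc] at key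
  have h0 : 0 ≤ ⌊1 / δ⌋ := Int.floor_nonneg.2 (by positivity)
  have h1 : 1 / δ ≤ (((⌊1 / δ⌋ + 1 - 0).toNat : ℕ) : ℝ) := by
    have h2 := Int.lt_floor_add_one (1 / δ)
    have h3 : ((((⌊1 / δ⌋ + 1 - 0).toNat : ℕ) : ℤ) : ℝ) = ((⌊1 / δ⌋ + 1 : ℤ) : ℝ) := by
      rw [Int.toNat_of_nonneg (by omega)]; push_cast; ring
    have h4 : (((⌊1 / δ⌋ + 1 - 0).toNat : ℕ) : ℝ) = ((⌊1 / δ⌋ + 1 : ℤ) : ℝ) := by
      rw [← h3]; push_cast; rfl
    rw [h4]
    push_cast
    exact h2.le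
  have h2 : (1 / δ) ^ n ≤ (((k + 2) ^ n * P.card : ℕ) : ℝ) ^ c := by
    refine le_trans ?_ key
    push_cast
    exact pow_le_pow_left₀ (by positivity) h1 n
  have h3 : ((1 / δ) ^ n) ^ (1 / c) ≤ (((k + 2) ^ n * P.card : ℕ) : ℝ) := by
    have := Real.rpow_le_rpow (by positivity) h2 (show 0 ≤ 1 / c by positivity)
    rwa [← Real.rpow_mul (Nat.cast_nonneg _), mul_one_div_cancel hc.ne', Real.rpow_one] at this
  have h4 : δ ^ (-((n : ℝ) / c)) = ((1 / δ) ^ n) ^ (1 / c) := by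
    rw [← Real.rpow_natCast (1 / δ) n, ← Real.rpow_mul (by positivity), one_div,
      Real.inv_rpow hδ.le, ← Real.rpow_neg hδ.le]
    congr 1
    ring
  rw [h4]
  refine h3.trans (le_of_eq ?_)
  push_cast
  ring

end Pool.Agent.X163.Ak
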