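import Pool.Agent.X163.Ak.MultCount
import Pool.Agent.X163.Ak.Mink

/-! The sums-differences inequality with multiplicities. -/

set_option autoImplicit false
set_option linter.unusedSectionVars false

open Finset Filter Topology

namespace Pool.Agent.X163.Ak.Mult

/-- the linear form `e x + f y` -/
def form (e f : ℤ) (z : ℤ × ℤ) : ℤ := e * z.1 + f * z.2

theorem form_inj {e f g h : ℤ} (hd : e * h - f * g ≠ 0) {z w : ℤ × ℤ} (h1 : form e f z = form e f w)
    (h2 : form g h z = form g h w) : z = w := by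
  unfold form at h1 h2
  have e1 : (e * h - f * g) * (z.1 - w.1) = 0 := by linear_combination h * h1 - f * h2
  have e2 : (e * h - f * g) * (z.2 - w.2) = 0 := by linear_combination e * h2 - g * h1
  have f1 := (mul_eq_zero.1 e1).resolve_left hd
  have f2 := (mul_eq_zero.1 e2).resolve_left hd
  exact Prod.ext (by linarith) (by linarith)

/-- a prime which separates finitely many integers -/
theorem exists_prime (T : Finset ℤ) : ∃ p : ℕ, p.Prime ∧
    ∀ x ∈ T, ∀ y ∈ T, ((x : ℤ) : ZMod p) = ((y : ℤ) : ZMod p) → x = y := by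
  obtain ⟨p, hp, hpp⟩ := Nat.exists_infinite_primes (2 * ∑ x ∈ T, x.natAbs + 1)
  refine ⟨p, hpp, fun x hx y hy hxy => ?_⟩
  have hb : ∀ x ∈ T, (|x| : ℤ) ≤ ((∑ x ∈ T, x.natAbs : ℕ) : ℤ) := by
    intro x hx
    rw [Int.abs_eq_natAbs]
    exact_mod_cast single_le_sum (f := fun x : ℤ => x.natAbs) (fun _ _ => Nat.zero_le _) hx
  have h1 : ((x - y : ℤ) : ZMod p) = 0 := by push_cast; rw [hxy, sub_self]
  have h2 : (p : ℤ) ∣ x - y := (ZMod.intCast_zmod_eq_zero_iff_dvd _ p).1 h1
  have h3 : |x - y| < (p : ℤ) := by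
    have a1 := hb x hx
    have a2 := hb y hy
    have a3 := abs_sub x y
    have a4 : ((2 * ∑ x ∈ T, x.natAbs + 1 : ℕ) : ℤ) ≤ p := by exact_mod_cast hp
    push_cast at a1 a2 a4
    linarith
  have := Int.eq_zero_of_abs_lt_dvd h2 h3
  linarith

/-- removing constants by powers -/
theorem le_of_pow {x y C M : ℝ} (hy : 0 < y) (_hx : 0 ≤ x)
    (h : ∀ r : ℕ, x ^ r ≤ (M * r + 1) * C * y ^ r) : x ≤ y := by
  by_contra hcon
  push Not at hcon
  obtain ⟨q, hq⟩ : ∃ q, q = x / y := ⟨_, rfl⟩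
  have hq1 : 1 < q := by rw [hq]; exact (one_lt_div hy).2 hcon
  have h1 : ∀ r : ℕ, q ^ r ≤ (M * r + 1) * C := by
    intro r
    rw [hq, div_pow, div_le_iff₀ (by positivity)]
    exact h r
  have t0 := tendsto_pow_const_div_const_pow_of_one_lt 0 hq1
  have t1 := tendsto_pow_const_div_const_pow_of_one_lt 1 hq1
  have t2 : Tendsto (fun r : ℕ => M * C * ((r : ℝ) ^ 1 / q ^ r) + C * ((r : ℝ) ^ 0 / q ^ r)) atTop
      (𝓝 (M * C * 0 + C * 0)) := (t1.const_mul _).add (t0.const_mul _)
  rw [mul_zero, mul_zero, add_zero] at t2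
  obtain ⟨r, hr⟩ := (t2.eventually (gt_mem_nhds (show (0 : ℝ) < 1 by norm_num))).exists
  have h2 := h1 r
  have hqr : 0 < q ^ r := by positivity
  have h3 : (M * C * ((r : ℝ) ^ 1 / q ^ r) + C * ((r : ℝ) ^ 0 / q ^ r)) * q ^ r = (M * r + 1) * C := by
    field_simp
  have h4 := mul_lt_mul_of_pos_right hr hqr
  rw [h3] at h4
  linarith

section tensor

variable {I : Type} [DecidableEq I]

/-- the inequality in `ℤ ^ r` -/
theorem sd_tensor {J : Finset I} {e f : ℤ} {u v : I → ℤ} {c : ℝ} (hc0 : 0 ≤ c)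
    (hSD : ∀ A : Finset (ℤ × ℤ), A.Nonempty → ∃ i ∈ J,
      ((A.image (form e f)).card : ℝ) ≤ ((A.image (form (u i) (v i))).card : ℝ) ^ c) {r : ℕ}
    (E : Finset (Fin r → ℤ × ℤ)) (hE : E.Nonempty) {G : Type} [DecidableEq G]
    (L : I → (Fin r → ℤ × ℤ) → G)
    (hL : ∀ i ∈ J, ∀ w ∈ E, ∀ w' ∈ E, L i w = L i w' → ∀ j, form (u i) (v i) (w j) =
      form (u i) (v i) (w' j)) :
    ∃ i ∈ J, ((E.image (fun w => fun j => form e f (w j))).card : ℝ) ≤
      ((E.image (L i)).card : ℝ) ^ c := by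
  classical
  obtain ⟨ψ, hψ⟩ := Pool.Agent.X163.Ak.sep_form (E.image (fun w => fun j => form e f (w j)))
  obtain ⟨t, ht⟩ : ∃ t : (Fin r → ℤ × ℤ) → ℤ × ℤ,
      ∀ w, t w = (∑ j, (w j).1 * ψ j, ∑ j, (w j).2 * ψ j) := ⟨_, fun _ => rfl⟩
  have hform : ∀ (a b : ℤ) (w : Fin r → ℤ × ℤ), form a b (t w) = ∑ j, form a b (w j) * ψ j := by
    intro a b w
    rw [ht]
    unfold form
    simp only
    rw [mul_sum, mul_sum, ← sum_add_distrib]
    exact sum_congr rfl fun j _ => by ring
  obtain ⟨i, hi, h1⟩ := hSD (E.image t) (hE.image _)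
  refine ⟨i, hi, ?_⟩
  have h2 : (E.image (fun w => fun j => form e f (w j))).card =
      ((E.image t).image (form e f)).card := by
    rw [image_image]
    have h3 : E.image (form e f ∘ t) =
        (E.image (fun w => fun j => form e f (w j))).image (fun x : Fin r → ℤ => ∑ j, x j * ψ j) := by
      rw [image_image]
      refine image_congr fun w _ => ?_
      simp only [Function.comp]
      exact hform e f w
    rw [h3, card_image_of_injOn hψ]
  have h3 : ((E.image t).image (form (u i) (v i))).card ≤ (E.image (L i)).card := by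
    rw [image_image]
    -- the value is determined by `L i`
    have h4 : ∃ g : G → ℤ, ∀ w ∈ E, g (L i w) = form (u i) (v i) (t w) := by
      obtain ⟨w₀, hw₀⟩ := hE
      refine ⟨fun b => if hb : ∃ w ∈ E, L i w = b then form (u i) (v i) (t hb.choose) else 0,
        fun w hw => ?_⟩
      have hb : ∃ w' ∈ E, L i w' = L i w := ⟨w, hw, rfl⟩
      simp only [hb, dite_true]
      have h5 := hL i hi _ hb.choose_spec.1 w hw hb.choose_spec.2
      rw [hform, hform]
      exact sum_congr rfl fun j _ => by rw [h5 j]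
    obtain ⟨g, hg⟩ := h4
    have h5 : E.image (form (u i) (v i) ∘ t) ⊆ (E.image (L i)).image g := by
      intro x hx
      obtain ⟨w, hw, rfl⟩ := mem_image.1 hx
      simp only [Function.comp]
      rw [← hg w hw]
      exact mem_image_of_mem _ (mem_image_of_mem _ hw)
    exact (card_le_card h5).trans card_image_le
  rw [h2]
  exact h1.trans (Real.rpow_le_rpow (Nat.cast_nonneg _) (by exact_mod_cast h3) hc0)

/-- The sums-differences inequality with multiplicities. -/
theorem mult {J : Finset I} {e f : ℤ} {u v : I → ℤ} {c : ℝ} (hc1 : 1 ≤ c) (hc2 : c ≤ 2)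
    (hdet : ∀ i ∈ J, e * v i - f * u i ≠ 0)
    (hSD : ∀ A : Finset (ℤ × ℤ), A.Nonempty → ∃ i ∈ J,
      ((A.image (form e f)).card : ℝ) ≤ ((A.image (form (u i) (v i))).card : ℝ) ^ c)
    (A : Finset (ℤ × ℤ)) (hA : A.Nonempty) : ∃ i ∈ J,
      ∑ d ∈ A.image (form e f), ((A.filter (fun z => form e f z = d)).card : ℝ) ^ (c - 1) ≤
        ((A.image (form (u i) (v i))).card : ℝ) ^ c := by
  classical
  have hJ : J.Nonempty := by
    obtain ⟨i, hi, -⟩ := hSD A hA
    exact ⟨i, hi⟩
  obtain ⟨i₀, hi₀, hmax⟩ := exists_max_image J (fun i => (A.image (form (u i) (v i))).card) hJ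
  refine ⟨i₀, hi₀, ?_⟩
  obtain ⟨N, hN⟩ : ∃ N, N = (A.image (form (u i₀) (v i₀))).card := ⟨_, rfl⟩
  have hN1 : 1 ≤ N := by rw [hN]; exact (hA.image _).card_pos
  have hN1' : (1 : ℝ) ≤ N := by exact_mod_cast hN1
  rw [← hN]
  simp only [← hN] at hmax
  -- the prime
  obtain ⟨T, hT⟩ : ∃ T : Finset ℤ, T = (J.biUnion fun i => A.image (form (u i) (v i))) ∪
      (J.image u ∪ J.image v) ∪ {0} := ⟨_, rfl⟩
  obtain ⟨p, hp, hpT⟩ := exists_prime T
  have := Fact.mk hp
  have hT1 : ∀ i ∈ J, ∀ z ∈ A, form (u i) (v i) z ∈ T := by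
    intro i hi z hz
    rw [hT]
    exact mem_union_left _ (mem_union_left _ (mem_biUnion.2 ⟨i, hi, mem_image_of_mem _ hz⟩))
  have hT2 : ∀ i ∈ J, u i ∈ T := by
    intro i hi
    rw [hT]
    exact mem_union_left _ (mem_union_right _ (mem_union_left _ (mem_image_of_mem _ hi)))
  have hT3 : ∀ i ∈ J, v i ∈ T := by
    intro i hi
    rw [hT]
    exact mem_union_left _ (mem_union_right _ (mem_union_right _ (mem_image_of_mem _ hi)))
  have hT4 : (0 : ℤ) ∈ T := by
    rw [hT]
    exact mem_union_right _ (mem_singleton_self _)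
  have huv : ∀ i ∈ J, ((u i : ℤ) : ZMod p) ≠ 0 ∨ ((v i : ℤ) : ZMod p) ≠ 0 := by
    intro i hi
    by_contra hcon
    push Not at hcon
    have h1 : u i = 0 := hpT _ (hT2 i hi) _ hT4 (by rw [hcon.1, Int.cast_zero])
    have h2 : v i = 0 := hpT _ (hT3 i hi) _ hT4 (by rw [hcon.2, Int.cast_zero])
    apply hdet i hi
    rw [h1, h2]
    ring
  have hc0 : 0 < c := by linarith
  -- the claim for all powers
  refine le_of_pow (C := (p : ℝ) ^ (c - 1) * (6 * J.card)) (M := A.card) (by positivity)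
    (sum_nonneg fun _ _ => by positivity) fun r => ?_
  obtain ⟨E, hE⟩ : ∃ E, E = Fintype.piFinset (fun _ : Fin r => A) := ⟨_, rfl⟩
  have hEne : E.Nonempty := by rw [hE]; exact Fintype.piFinset_nonempty.2 fun _ => hA
  have hEA : ∀ w ∈ E, ∀ j, w j ∈ A := by
    intro w hw j
    rw [hE] at hw
    exact Fintype.mem_piFinset.1 hw j
  obtain ⟨δ, hδ⟩ : ∃ δ : (Fin r → ℤ × ℤ) → Fin r → ℤ, ∀ w j, δ w j = form e f (w j) :=
    ⟨fun w j => form e f (w j), fun _ _ => rfl⟩
  have hδ' : δ = fun w => fun j => form e f (w j) := by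
    funext w j
    exact hδ w j
  obtain ⟨X, hX⟩ : ∃ X : (Fin r → ℤ × ℤ) → Fin r → ZMod p, ∀ w j, X w j = ((w j).1 : ZMod p) :=
    ⟨fun w j => ((w j).1 : ZMod p), fun _ _ => rfl⟩
  obtain ⟨Y, hY⟩ : ∃ Y : (Fin r → ℤ × ℤ) → Fin r → ZMod p, ∀ w j, Y w j = ((w j).2 : ZMod p) :=
    ⟨fun w j => ((w j).2 : ZMod p), fun _ _ => rfl⟩
  obtain ⟨L, hL⟩ : ∃ L : I → (Fin r → ℤ × ℤ) → Fin r → ZMod p,
      ∀ i w, L i w = ((u i : ℤ) : ZMod p) • X w + ((v i : ℤ) : ZMod p) • Y w :=
    ⟨fun i w => ((u i : ℤ) : ZMod p) • X w + ((v i : ℤ) : ZMod p) • Y w, fun _ _ => rfl⟩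
  have hLj : ∀ i w j, L i w j = ((form (u i) (v i) (w j) : ℤ) : ZMod p) := by
    intro i w j
    rw [hL, Pi.add_apply, Pi.smul_apply, Pi.smul_apply, hX, hY, smul_eq_mul, smul_eq_mul]
    unfold form
    push_cast
    rfl
  have hLinj : ∀ i ∈ J, ∀ w ∈ E, ∀ w' ∈ E, L i w = L i w' → ∀ j, form (u i) (v i) (w j) =
      form (u i) (v i) (w' j) := by
    intro i hi w hw w' hw' h j
    refine hpT _ (hT1 i hi _ (hEA w hw j)) _ (hT1 i hi _ (hEA w' hw' j)) ?_
    rw [← hLj, ← hLj, h]
  -- the fibres of the power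
  have hfib : ∀ d : Fin r → ℤ, E.filter (fun w => δ w = d) =
      Fintype.piFinset (fun j => A.filter (fun z => form e f z = d j)) := by
    intro d
    ext w
    rw [mem_filter, hE, Fintype.mem_piFinset, Fintype.mem_piFinset]
    constructor
    · rintro ⟨h1, h2⟩ j
      exact mem_filter.2 ⟨h1 j, by rw [← hδ, h2]⟩
    · intro h
      refine ⟨fun j => (mem_filter.1 (h j)).1, ?_⟩
      funext j
      rw [hδ]
      exact (mem_filter.1 (h j)).2
  have himg : E.image δ = Fintype.piFinset (fun _ : Fin r => A.image (form e f)) := by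
    ext d
    rw [mem_image, Fintype.mem_piFinset]
    constructor
    · rintro ⟨w, hw, rfl⟩ j
      rw [hδ]
      exact mem_image_of_mem _ (hEA w hw j)
    · intro h
      have : ∀ j, ∃ z ∈ A, form e f z = d j := fun j => mem_image.1 (h j)
      choose w hw hw2 using this
      refine ⟨w, by rw [hE]; exact Fintype.mem_piFinset.2 hw, ?_⟩
      funext j
      rw [hδ]
      exact hw2 j
  have hpow : (∑ d ∈ A.image (form e f), ((A.filter (fun z => form e f z = d)).card : ℝ) ^ (c - 1)) ^ r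
      = ∑ d ∈ E.image δ, ((E.filter (fun w => δ w = d)).card : ℝ) ^ (c - 1) := by
    rw [himg]
    have h1 := prod_univ_sum (fun _ : Fin r => A.image (form e f))
      (fun _ d => ((A.filter (fun z => form e f z = d)).card : ℝ) ^ (c - 1))
    rw [prod_const, card_univ, Fintype.card_fin] at h1
    rw [h1]
    refine sum_congr rfl fun d _ => ?_
    rw [hfib, Fintype.card_piFinset]
    push_cast
    exact Real.finsetProd_rpow _ _ (fun _ _ => Nat.cast_nonneg _) _
  rw [hpow]
  -- `L i₀` is injective on the fibres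
  have hfibL : ∀ d : Fin r → ℤ, ((E.filter (fun w => δ w = d)).image (L i₀)).card =
      (E.filter (fun w => δ w = d)).card := by
    intro d
    refine card_image_of_injOn fun w hw w' hw' h => ?_
    rw [mem_coe, mem_filter] at hw hw'
    funext j
    refine form_inj (hdet i₀ hi₀) ?_ (hLinj i₀ hi₀ w hw.1 w' hw'.1 h j)
    rw [← hδ, ← hδ, hw.2, hw'.2]
  have hLcard : ∀ i ∈ J, (E.image (L i)).card ≤ N ^ r := by
    intro i hi
    have h1 : E.image (L i) ⊆ Fintype.piFinset
        (fun _ : Fin r => (A.image (form (u i) (v i))).image (fun x : ℤ => (x : ZMod p))) := by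
      intro x hx
      obtain ⟨w, hw, rfl⟩ := mem_image.1 hx
      rw [Fintype.mem_piFinset]
      intro j
      rw [hLj]
      exact mem_image_of_mem _ (mem_image_of_mem _ (hEA w hw j))
    refine (card_le_card h1).trans ?_
    rw [Fintype.card_piFinset, prod_const, card_univ, Fintype.card_fin]
    exact Nat.pow_le_pow_left (card_image_le.trans (hmax i hi)) r
  -- the levels
  obtain ⟨R, hR⟩ : ∃ R, R = A.card * r + 1 := ⟨_, rfl⟩
  obtain ⟨D, hD⟩ : ∃ D : ℕ → Finset (Fin r → ℤ), ∀ s, D s =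
      (E.image δ).filter (fun d => p ^ s ≤ (E.filter (fun w => δ w = d)).card) := ⟨_, fun _ => rfl⟩
  have hlev : ∀ s, ((D s).card : ℝ) * ((p : ℝ) ^ s) ^ (c - 1) ≤ 6 * J.card * ((N : ℝ) ^ c) ^ r := by
    intro s
    rcases (D s).eq_empty_or_nonempty with h0 | ⟨d₀, hd₀⟩
    · rw [h0, card_empty, Nat.cast_zero, zero_mul]
      positivity
    · have hcard : Fintype.card (Fin s → ZMod p) = p ^ s := by
        rw [Fintype.card_fun, ZMod.card, Fintype.card_fin]
      have h1 : (Fintype.card (Fin s → ZMod p) : ℝ) ≤ (N : ℝ) ^ r := by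
        rw [hcard]
        rw [hD, mem_filter] at hd₀
        have h2 : p ^ s ≤ N ^ r := by
          refine hd₀.2.trans ?_
          rw [← hfibL]
          exact (card_le_card (image_subset_image (filter_subset _ _))).trans (hLcard i₀ hi₀)
        exact_mod_cast h2
      have h2 := core_count (K := Fin s → ZMod p) E X Y δ J (fun i => ((u i : ℤ) : ZMod p))
        (fun i => ((v i : ℤ) : ZMod p)) huv (i₀ := i₀) hc0 hc2 h1
        (fun i hi => by
          simp only [← hL]
          exact_mod_cast hLcard i hi)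
        (fun E' hE' hne => by
          simp only [← hL]
          rw [hδ']
          refine sd_tensor hc0.le hSD E' hne L fun i hi w hw w' hw' h j => ?_
          exact hLinj i hi w (hE' hw) w' (hE' hw') h j)
        (D s) (fun d hd => by
          simp only [← hL]
          rw [hfibL, hcard]
          rw [hD, mem_filter] at hd
          exact hd.2)
      rw [hcard] at h2
      push_cast at h2
      have h3 : ((N : ℝ) ^ r) ^ c = ((N : ℝ) ^ c) ^ r := by
        rw [← Real.rpow_natCast, ← Real.rpow_natCast, ← Real.rpow_mul (by positivity),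
          ← Real.rpow_mul (by positivity), mul_comm]
      rw [h3] at h2
      exact h2
  have hsum : ∑ d ∈ E.image δ, ((E.filter (fun w => δ w = d)).card : ℝ) ^ (c - 1) ≤
      ∑ s ∈ range R, ((D s).card : ℝ) * ((p : ℝ) ^ (s + 1)) ^ (c - 1) := by
    have h1 : ∀ s, ((D s).card : ℝ) * ((p : ℝ) ^ (s + 1)) ^ (c - 1) =
        ∑ d ∈ E.image δ, if p ^ s ≤ (E.filter (fun w => δ w = d)).card then
          ((p : ℝ) ^ (s + 1)) ^ (c - 1) else 0 := by
      intro s
      rw [← sum_filter, sum_const, nsmul_eq_mul, hD]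
    simp only [h1]
    rw [sum_comm]
    refine sum_le_sum fun d hd => ?_
    obtain ⟨n, hn⟩ : ∃ n, n = (E.filter (fun w => δ w = d)).card := ⟨_, rfl⟩
    rw [← hn]
    have hn0 : n ≠ 0 := by
      obtain ⟨w, hw, hwd⟩ := mem_image.1 hd
      rw [hn]
      exact (card_pos.2 ⟨w, mem_filter.2 ⟨hw, hwd⟩⟩).ne'
    have h2 : p ^ Nat.log p n ≤ n := Nat.pow_log_le_self p hn0
    have h3 : n < p ^ (Nat.log p n + 1) := Nat.lt_pow_succ_log_self hp.one_lt n
    have h4 : Nat.log p n ∈ range R := by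
      rw [mem_range, hR]
      have h5 : n ≤ A.card ^ r := by
        rw [hn]
        refine (card_le_card (filter_subset _ _)).trans (le_of_eq ?_)
        rw [hE, Fintype.card_piFinset, prod_const, card_univ, Fintype.card_fin]
      have h6 : A.card ^ r ≤ p ^ (A.card * r) := by
        rw [pow_mul]
        exact Nat.pow_le_pow_left (Nat.lt_pow_self hp.one_lt).le r
      have h7 : p ^ Nat.log p n ≤ p ^ (A.card * r) := h2.trans (h5.trans h6)
      have h8 := (Nat.pow_le_pow_iff_right hp.one_lt).1 h7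
      omega
    refine le_trans ?_ (single_le_sum (f := fun s => if p ^ s ≤ n then
      ((p : ℝ) ^ (s + 1)) ^ (c - 1) else 0) (fun s _ => by positivity) h4)
    rw [if_pos h2]
    refine Real.rpow_le_rpow (Nat.cast_nonneg _) ?_ (by linarith)
    exact_mod_cast h3.le
  refine hsum.trans ?_
  have hterm : ∀ s ∈ range R, ((D s).card : ℝ) * ((p : ℝ) ^ (s + 1)) ^ (c - 1) ≤
      (p : ℝ) ^ (c - 1) * (6 * J.card * ((N : ℝ) ^ c) ^ r) := by
    intro s _
    have h1 : ((p : ℝ) ^ (s + 1)) ^ (c - 1) = (p : ℝ) ^ (c - 1) * ((p : ℝ) ^ s) ^ (c - 1) := by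
      rw [pow_succ, Real.mul_rpow (by positivity) (by positivity), mul_comm]
    rw [h1]
    calc ((D s).card : ℝ) * ((p : ℝ) ^ (c - 1) * ((p : ℝ) ^ s) ^ (c - 1)) =
        (p : ℝ) ^ (c - 1) * (((D s).card : ℝ) * ((p : ℝ) ^ s) ^ (c - 1)) := by ring
      _ ≤ _ := mul_le_mul_of_nonneg_left (hlev s) (by positivity)
  refine (sum_le_sum hterm).trans (le_of_eq ?_)
  rw [sum_const, card_range, nsmul_eq_mul, hR]
  push_cast
  ring

end tensor

end Pool.Agent.X163.Ak.Mult
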