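import Mathlib

/-! Rectification of finite sets in `(ℤ/p)²`. -/

set_option autoImplicit false

open Finset

namespace Pool.Agent.X163.Ak.Rect

/-- A dilation makes finitely many residues small. -/
theorem dilate {p : ℕ} (hp : p.Prime) (M : ℕ) (hM : 0 < M) (X : Finset (ZMod p))
    (hX : M ^ X.card < p) : ∃ (u : ZMod p) (t : ZMod p → ℤ), u ≠ 0 ∧
      (∀ x, ((t x : ℤ) : ZMod p) = u * x) ∧ ∀ x ∈ X, M * |t x| < p := by
  classical
  have := Fact.mk hp
  have hp0 : 0 < p := hp.pos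
  obtain ⟨f, hf⟩ : ∃ f : ℕ → (↥X → Fin M), ∀ l x,
      ((f l x : Fin M) : ℕ) = ((l : ZMod p) * x.1).val * M / p := by
    refine ⟨fun l x => ⟨((l : ZMod p) * x.1).val * M / p, ?_⟩, fun l x => rfl⟩
    rw [Nat.div_lt_iff_lt_mul hp0, Nat.mul_comm M p]
    exact Nat.mul_lt_mul_of_pos_right (ZMod.val_lt _) hM
  obtain ⟨l, hl, l', hl', hne, heq⟩ := exists_ne_map_eq_of_card_lt_of_maps_to
    (s := range p) (t := (univ : Finset (↥X → Fin M))) (by
      rw [card_univ, Fintype.card_fun, Fintype.card_fin, Fintype.card_coe, card_range]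
      exact hX) (f := f) (fun _ _ => mem_univ _)
  rw [mem_range] at hl hl'
  refine ⟨(l' : ZMod p) - l, fun x => (((l' : ZMod p) * x).val : ℤ) - (((l : ZMod p) * x).val : ℤ),
    ?_, ?_, ?_⟩
  · intro h
    apply hne
    have h1 : (l' : ZMod p) = (l : ZMod p) := sub_eq_zero.1 h
    rw [ZMod.natCast_eq_natCast_iff'] at h1
    rw [Nat.mod_eq_of_lt hl, Nat.mod_eq_of_lt hl'] at h1
    exact h1.symm
  · intro x
    push_cast
    rw [ZMod.natCast_zmod_val, ZMod.natCast_zmod_val]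
    ring
  · intro x hx
    show (M : ℤ) * |(((l' : ZMod p) * x).val : ℤ) - (((l : ZMod p) * x).val : ℤ)| < p
    have h1 := congrFun heq ⟨x, hx⟩
    have h2 : ((l : ZMod p) * x).val * M / p = ((l' : ZMod p) * x).val * M / p := by
      rw [← hf l ⟨x, hx⟩, ← hf l' ⟨x, hx⟩, h1]
    obtain ⟨a, ha⟩ : ∃ a, a = ((l : ZMod p) * x).val := ⟨_, rfl⟩
    obtain ⟨b, hb⟩ : ∃ b, b = ((l' : ZMod p) * x).val := ⟨_, rfl⟩
    rw [← ha, ← hb] at h2 ⊢
    have e1 := Nat.div_add_mod (a * M) p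
    have e2 := Nat.div_add_mod (b * M) p
    have e3 := Nat.mod_lt (a * M) hp0
    have e4 := Nat.mod_lt (b * M) hp0
    rw [h2] at e1
    have h3 : (M : ℤ) * ((b : ℤ) - a) = ((b * M % p : ℕ) : ℤ) - ((a * M % p : ℕ) : ℤ) := by
      have f1 : (a : ℤ) * M = p * ((b * M / p : ℕ) : ℤ) + ((a * M % p : ℕ) : ℤ) := by
        exact_mod_cast e1.symm
      have f2 : (b : ℤ) * M = p * ((b * M / p : ℕ) : ℤ) + ((b * M % p : ℕ) : ℤ) := by
        exact_mod_cast e2.symm
      linarith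
    have h4 : (M : ℤ) * |(b : ℤ) - a| = |(M : ℤ) * ((b : ℤ) - a)| := by
      rw [abs_mul, abs_of_nonneg (by positivity : (0 : ℤ) ≤ (M : ℤ))]
    rw [h4, h3, abs_lt]
    constructor <;> omega

/-- Small sets in `(ℤ/p)²` are isomorphic to sets of integer points, as far as finitely many
projections are concerned. -/
theorem rect (n k : ℕ) : ∃ p₀ : ℕ, ∀ p : ℕ, p.Prime → p₀ ≤ p →
    ∀ A : Finset (ZMod p × ZMod p), A.card ≤ n → ∃ t : ZMod p → ℤ,
      (∀ x ∈ A, ∀ y ∈ A, t x.2 = t y.2 → x.2 = y.2) ∧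
      ∀ j : ℕ, j < k → ∀ x ∈ A, ∀ y ∈ A, x.1 + (j : ZMod p) * x.2 = y.1 + (j : ZMod p) * y.2 →
        t x.1 + j * t x.2 = t y.1 + j * t y.2 := by
  classical
  refine ⟨(2 * k + 2) ^ (2 * n) + 1, fun p hp hp0 A hA => ?_⟩
  have := Fact.mk hp
  obtain ⟨X, hX⟩ : ∃ X : Finset (ZMod p), X = A.image Prod.fst ∪ A.image Prod.snd := ⟨_, rfl⟩
  have hXc : X.card ≤ 2 * n := by
    rw [hX]
    refine (card_union_le _ _).trans ?_
    have h1 : (A.image Prod.fst).card ≤ A.card := card_image_le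
    have h2 : (A.image Prod.snd).card ≤ A.card := card_image_le
    omega
  obtain ⟨u, t, hu, ht, hsmall⟩ := dilate hp (2 * k + 2) (by omega) X (by
    have : (2 * k + 2) ^ X.card ≤ (2 * k + 2) ^ (2 * n) := Nat.pow_le_pow_right (by omega) hXc
    omega)
  have hX1 : ∀ x ∈ A, x.1 ∈ X := fun x hx => by
    rw [hX]; exact mem_union_left _ (mem_image_of_mem _ hx)
  have hX2 : ∀ x ∈ A, x.2 ∈ X := fun x hx => by
    rw [hX]; exact mem_union_right _ (mem_image_of_mem _ hx)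
  refine ⟨t, fun x hx y hy h => ?_, fun j hj x hx y hy h => ?_⟩
  · have h1 : u * x.2 = u * y.2 := by rw [← ht, ← ht, h]
    exact mul_left_cancel₀ hu h1
  · obtain ⟨z, hz⟩ : ∃ z : ℤ, z = (t x.1 + j * t x.2) - (t y.1 + j * t y.2) := ⟨_, rfl⟩
    have hz0 : ((z : ℤ) : ZMod p) = 0 := by
      rw [hz]
      push_cast
      rw [ht, ht, ht, ht]
      have : u * x.1 + (j : ZMod p) * (u * x.2) - (u * y.1 + (j : ZMod p) * (u * y.2)) =
          u * ((x.1 + (j : ZMod p) * x.2) - (y.1 + (j : ZMod p) * y.2)) := by ring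
      rw [this, h, sub_self, mul_zero]
    have hdvd : (p : ℤ) ∣ z := (ZMod.intCast_zmod_eq_zero_iff_dvd z p).1 hz0
    have s1 := hsmall _ (hX1 x hx)
    have s2 := hsmall _ (hX2 x hx)
    have s3 := hsmall _ (hX1 y hy)
    have s4 := hsmall _ (hX2 y hy)
    have hzabs : |z| < p := by
      have b1 : |z| ≤ |t x.1| + j * |t x.2| + (|t y.1| + j * |t y.2|) := by
        rw [hz]
        refine (abs_sub _ _).trans ?_
        refine add_le_add ((abs_add_le _ _).trans ?_) ((abs_add_le _ _).trans ?_)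
        · rw [abs_mul, abs_of_nonneg (by positivity : (0 : ℤ) ≤ (j : ℤ))]
        · rw [abs_mul, abs_of_nonneg (by positivity : (0 : ℤ) ≤ (j : ℤ))]
      have hjk : (j : ℤ) + 1 ≤ k := by exact_mod_cast hj
      push_cast at s1 s2 s3 s4
      have q1 := abs_nonneg (t x.1)
      have q2 := abs_nonneg (t x.2)
      have q3 := abs_nonneg (t y.1)
      have q4 := abs_nonneg (t y.2)
      have hj0 : (0 : ℤ) ≤ j := by positivity
      have c2 : (j : ℤ) * ((2 * k + 2) * |t x.2|) ≤ j * p := mul_le_mul_of_nonneg_left s2.le hj0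
      have c4 : (j : ℤ) * ((2 * k + 2) * |t y.2|) ≤ j * p := mul_le_mul_of_nonneg_left s4.le hj0
      have d1 : (2 * (k : ℤ) + 2) * |z| ≤ (2 * k + 2) *
          (|t x.1| + j * |t x.2| + (|t y.1| + j * |t y.2|)) :=
        mul_le_mul_of_nonneg_left b1 (by positivity)
      have hppos : (0 : ℤ) < p := by exact_mod_cast hp.pos
      have d2 : (2 * (k : ℤ) + 2) * |z| < (2 * k + 2) * p := by nlinarith
      exact lt_of_mul_lt_mul_left d2 (by positivity)
    have : z = 0 := Int.eq_zero_of_abs_lt_dvd hdvd hzabs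
    rw [hz] at this
    linarith

end Pool.Agent.X163.Ak.Rect
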