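import Mathlib

/-! Products of plane sets, their projections, and weights from a maximum inequality. -/

set_option autoImplicit false

open Finset

namespace Pool.Agent.X163.Ak.Geo

/-- The projection `π_r(A)`; `none` stands for the slope `∞`. -/
def proj (r : Option ℚ) (A : Finset (ℤ × ℤ)) : Finset ℚ :=
  A.image (fun p => match r with
    | none => (p.2 : ℚ)
    | some t => (p.1 : ℚ) + t * (p.2 : ℚ))

/-- value of the projection -/
def pv (r : Option ℚ) (p : ℤ × ℤ) : ℚ :=
  match r with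
    | none => (p.2 : ℚ)
    | some t => (p.1 : ℚ) + t * (p.2 : ℚ)

theorem proj_eq (r : Option ℚ) (A : Finset (ℤ × ℤ)) : proj r A = A.image (pv r) := by
  unfold proj pv
  rfl

/-- the combination `A + N B` -/
def comb (N : ℤ) (A B : Finset (ℤ × ℤ)) : Finset (ℤ × ℤ) :=
  (A ×ˢ B).image (fun q => (q.1.1 + N * q.2.1, q.1.2 + N * q.2.2))

theorem pv_comb (r : Option ℚ) (N : ℤ) (p q : ℤ × ℤ) :
    pv r (p.1 + N * q.1, p.2 + N * q.2) = pv r p + N * pv r q := by
  unfold pv
  cases r with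
  | none => push_cast; ring
  | some t => push_cast; ring

theorem card_proj_comb_le (r : Option ℚ) (N : ℤ) (A B : Finset (ℤ × ℤ)) :
    (proj r (comb N A B)).card ≤ (proj r A).card * (proj r B).card := by
  rw [← card_product]
  have : proj r (comb N A B) ⊆ ((proj r A) ×ˢ (proj r B)).image (fun q => q.1 + (N : ℚ) * q.2) := by
    intro x hx
    rw [proj_eq, comb, image_image, mem_image] at hx
    obtain ⟨⟨p, q⟩, hpq, rfl⟩ := hx
    rw [mem_product] at hpq
    rw [mem_image]
    refine ⟨(pv r p, pv r q), ?_, ?_⟩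
    · rw [mem_product, proj_eq, proj_eq]
      exact ⟨mem_image_of_mem _ hpq.1, mem_image_of_mem _ hpq.2⟩
    · simp only [Function.comp]
      rw [pv_comb]
  exact (card_le_card this).trans card_image_le

theorem exists_comb (A B : Finset (ℤ × ℤ)) : ∃ N : ℤ,
    (proj (some (-1)) A).card * (proj (some (-1)) B).card ≤
      (proj (some (-1)) (comb N A B)).card := by
  obtain ⟨M, hM⟩ : ∃ M : ℤ, M = ∑ p ∈ A, |p.1 - p.2| := ⟨_, rfl⟩
  have hM' : ∀ p ∈ A, |p.1 - p.2| ≤ M := by
    intro p hp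
    rw [hM]
    exact single_le_sum (f := fun p : ℤ × ℤ => |p.1 - p.2|) (fun i _ => abs_nonneg _) hp
  refine ⟨2 * M + 1, ?_⟩
  have hv : ∀ p : ℤ × ℤ, pv (some (-1)) p = ((p.1 - p.2 : ℤ) : ℚ) := by
    intro p; unfold pv; push_cast; ring
  rw [← card_product]
  refine card_le_card_of_injOn (fun q => q.1 + ((2 * M + 1 : ℤ) : ℚ) * q.2) ?_ ?_
  · rintro ⟨u, v⟩ huv
    simp only [coe_product, Set.mem_prod, mem_coe, proj_eq, mem_image] at huv
    obtain ⟨⟨p, hp, rfl⟩, ⟨q, hq, rfl⟩⟩ := huv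
    simp only [proj_eq, comb, coe_image, Set.mem_image, mem_coe, mem_product]
    refine ⟨(p.1 + (2 * M + 1) * q.1, p.2 + (2 * M + 1) * q.2), ⟨(p, q), ⟨hp, hq⟩, rfl⟩, ?_⟩
    rw [pv_comb]
  · rintro ⟨u, v⟩ huv ⟨u', v'⟩ huv' h
    simp only [coe_product, Set.mem_prod, mem_coe, proj_eq, mem_image] at huv huv'
    obtain ⟨⟨p, hp, rfl⟩, ⟨q, hq, rfl⟩⟩ := huv
    obtain ⟨⟨p', hp', rfl⟩, ⟨q', hq', rfl⟩⟩ := huv'
    simp only [hv] at h ⊢
    have h' : (p.1 - p.2) + (2 * M + 1) * (q.1 - q.2) = (p'.1 - p'.2) + (2 * M + 1) * (q'.1 - q'.2) := by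
      exact_mod_cast h
    have b1 := abs_le.1 (hM' p hp)
    have b2 := abs_le.1 (hM' p' hp')
    have hq : q.1 - q.2 = q'.1 - q'.2 := by
      by_contra hne
      rcases lt_or_gt_of_ne hne with h1 | h1
      · have : (2 * M + 1) * (q.1 - q.2) + (2 * M + 1) ≤ (2 * M + 1) * (q'.1 - q'.2) := by
          have h3 : (q.1 - q.2) + 1 ≤ q'.1 - q'.2 := h1
          have h4 : 0 ≤ 2 * M + 1 := by linarith [b1.1, b1.2]
          nlinarith
        linarith [b1.1, b1.2, b2.1, b2.2]
      · have : (2 * M + 1) * (q'.1 - q'.2) + (2 * M + 1) ≤ (2 * M + 1) * (q.1 - q.2) := by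
          have h3 : (q'.1 - q'.2) + 1 ≤ q.1 - q.2 := h1
          have h4 : 0 ≤ 2 * M + 1 := by linarith [b1.1, b1.2]
          nlinarith
        linarith [b1.1, b1.2, b2.1, b2.2]
    have hp : p.1 - p.2 = p'.1 - p'.2 := by rw [hq] at h'; linarith
    rw [hp, hq]

theorem comb_nonempty {A B : Finset (ℤ × ℤ)} (hA : A.Nonempty) (hB : B.Nonempty) (N : ℤ) :
    (comb N A B).Nonempty := (hA.product hB).image _

theorem proj_nonempty {A : Finset (ℤ × ℤ)} (hA : A.Nonempty) (r : Option ℚ) :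
    (proj r A).Nonempty := by rw [proj_eq]; exact hA.image _

theorem one_le_card {A : Finset (ℤ × ℤ)} (hA : A.Nonempty) (r : Option ℚ) :
    (1 : ℝ) ≤ (proj r A).card := by
  exact_mod_cast (proj_nonempty hA r).card_pos

/-- A finite set of real vectors closed under addition, each member of which has a nonnegative
coordinate, has nonnegative weighted sums for suitable weights. -/
theorem weights {ι : Type} [Fintype ι] [DecidableEq ι] (G : AddSubmonoid (ι → ℝ))
    (H : ∀ v ∈ G, ∃ r, 0 ≤ v r) :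
    ∃ w : ι → ℝ, (∀ r, 0 ≤ w r) ∧ ∑ r, w r = 1 ∧ ∀ v ∈ G, 0 ≤ ∑ r, w r * v r := by
  have hopen : IsOpen {v : ι → ℝ | ∀ r, v r < 0} := by
    rw [Set.ofPred_forall]
    exact isOpen_iInter_of_finite fun r => isOpen_lt (continuous_apply r) continuous_const
  have hconv : Convex ℝ {v : ι → ℝ | ∀ r, v r < 0} := by
    intro x hx y hy a b ha hb hab r
    simp only [Pi.add_apply, Pi.smul_apply, smul_eq_mul]
    have h1 := hx r
    have h2 := hy r
    rcases eq_or_lt_of_le ha with h | h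
    · subst h
      have : b = 1 := by linarith
      subst this
      simpa using h2
    · nlinarith [mul_nonneg hb (neg_nonneg.2 h2.le), mul_pos h (neg_pos.2 h1)]
  have hdisj : Disjoint {v : ι → ℝ | ∀ r, v r < 0} (convexHull ℝ (G : Set (ι → ℝ))) := by
    rw [Set.disjoint_left]
    intro x hx hxG
    rw [_root_.convexHull_eq] at hxG
    obtain ⟨κ, t, a, z, ha, ha1, hz, rfl⟩ := hxG
    rw [Finset.centerMass_eq_of_sum_1 _ _ ha1] at hx
    -- approximate by natural multiples
    obtain ⟨B, hB⟩ : ∃ B : ℝ, B = ∑ i ∈ t, ∑ r, |z i r| := ⟨_, rfl⟩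
    have hne : Nonempty ι := by
      by_contra hno
      rw [not_nonempty_iff] at hno
      obtain ⟨r, -⟩ := H 0 G.zero_mem
      exact hno.false r
    obtain ⟨δ, hδ, hδx⟩ : ∃ δ : ℝ, 0 < δ ∧ ∀ r, (∑ i ∈ t, a i • z i) r ≤ -δ := by
      obtain ⟨r₀, -, h₀⟩ := Finset.exists_max_image (univ : Finset ι)
        (fun r => (∑ i ∈ t, a i • z i) r) univ_nonempty
      exact ⟨-((∑ i ∈ t, a i • z i) r₀), by linarith [hx r₀], fun r => by
        have := h₀ r (mem_univ r); linarith⟩
    obtain ⟨n, hn⟩ := exists_nat_gt (B / δ)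
    have hn' : B < n * δ := by rwa [div_lt_iff₀ hδ] at hn
    obtain ⟨r, hr⟩ := H (∑ i ∈ t, ⌊(n : ℝ) * a i⌋₊ • z i)
      (G.sum_mem fun i hi => G.nsmul_mem (hz i hi) _)
    have h1 : (∑ i ∈ t, ⌊(n : ℝ) * a i⌋₊ • z i) r ≤ n * (∑ i ∈ t, a i • z i) r + B := by
      rw [Finset.sum_apply, Finset.sum_apply, Finset.mul_sum, hB, ← Finset.sum_add_distrib]
      refine Finset.sum_le_sum fun i hi => ?_
      have h2 : |z i r| ≤ ∑ r, |z i r| :=
        Finset.single_le_sum (f := fun r => |z i r|) (fun _ _ => abs_nonneg _) (mem_univ r)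
      have h3 : ((⌊(n : ℝ) * a i⌋₊ : ℕ) : ℝ) ≤ (n : ℝ) * a i :=
        Nat.floor_le (mul_nonneg (Nat.cast_nonneg _) (ha i hi))
      have h4 : (n : ℝ) * a i < ((⌊(n : ℝ) * a i⌋₊ : ℕ) : ℝ) + 1 := Nat.lt_floor_add_one _
      simp only [Pi.smul_apply, nsmul_eq_mul, smul_eq_mul]
      have h5 : (((⌊(n : ℝ) * a i⌋₊ : ℕ) : ℝ) - (n : ℝ) * a i) * z i r ≤ |z i r| := by
        calc (((⌊(n : ℝ) * a i⌋₊ : ℕ) : ℝ) - (n : ℝ) * a i) * z i r
            ≤ |(((⌊(n : ℝ) * a i⌋₊ : ℕ) : ℝ) - (n : ℝ) * a i) * z i r| := le_abs_self _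
          _ = |((⌊(n : ℝ) * a i⌋₊ : ℕ) : ℝ) - (n : ℝ) * a i| * |z i r| := abs_mul _ _
          _ ≤ 1 * |z i r| := by
              refine mul_le_mul_of_nonneg_right ?_ (abs_nonneg _)
              rw [abs_le]
              constructor <;> linarith
          _ = |z i r| := one_mul _
      nlinarith
    have h6 : (n : ℝ) * (∑ i ∈ t, a i • z i) r ≤ n * (-δ) :=
      mul_le_mul_of_nonneg_left (hδx r) (Nat.cast_nonneg _)
    linarith
  obtain ⟨f, u, hf1, hf2⟩ := geometric_hahn_banach_open hconv hopen (convex_convexHull ℝ _) hdisj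
  have hu0 : u ≤ 0 := by
    have := hf2 0 (subset_convexHull ℝ _ G.zero_mem)
    simpa using this
  have hG : ∀ v ∈ G, 0 ≤ f v := by
    intro v hv
    by_contra hneg
    push Not at hneg
    obtain ⟨n, hn⟩ := exists_nat_gt (u / f v)
    have h1 := hf2 (n • v) (subset_convexHull ℝ _ (G.nsmul_mem hv n))
    rw [map_nsmul, nsmul_eq_mul] at h1
    rw [div_lt_iff_of_neg hneg] at hn
    linarith
  have hrep : ∀ v : ι → ℝ, f v = ∑ r, f (Pi.single r 1) * v r := by
    intro v
    have := LinearMap.pi_apply_eq_sum_univ (f : (ι → ℝ) →ₗ[ℝ] ℝ) v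
    simp only [ContinuousLinearMap.coe_coe] at this
    rw [this]
    refine Finset.sum_congr rfl fun r _ => ?_
    rw [smul_eq_mul, mul_comm]
    congr 2
    ext j
    by_cases h : j = r
    · subst h; simp
    · simp [Pi.single_apply, h, Ne.symm h]
  have hpos : ∀ r, 0 ≤ f (Pi.single r 1) := by
    intro r
    by_contra hneg
    push Not at hneg
    -- use a vector with a very negative coordinate r
    obtain ⟨M, hM⟩ : ∃ M : ℝ, M = ∑ s, |f (Pi.single s 1)| := ⟨_, rfl⟩
    have hM0 : 0 ≤ M := by rw [hM]; exact Finset.sum_nonneg fun _ _ => abs_nonneg _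
    obtain ⟨x, hx⟩ : ∃ x : ℝ, x = M / (-f (Pi.single r 1)) + 1 := ⟨_, rfl⟩
    have hxpos : 0 < x := by
      rw [hx]
      have : 0 ≤ M / (-f (Pi.single r 1)) := div_nonneg hM0 (by linarith)
      linarith
    have h1 := hf1 (fun s => if s = r then -(x + 1) else -1) (by
      intro s
      by_cases h : s = r
      · simp only [h, if_true]; linarith
      · simp only [h, if_false]; norm_num)
    rw [hrep] at h1
    have h2 : ∑ s, f (Pi.single s 1) * (if s = r then -(x + 1) else -1) =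
        -(x * f (Pi.single r 1)) - ∑ s, f (Pi.single s 1) := by
      have : ∀ s, f (Pi.single s 1) * (if s = r then -(x + 1) else -1) =
          -(if s = r then x * f (Pi.single s 1) else 0) - f (Pi.single s 1) := by
        intro s
        by_cases h : s = r
        · simp only [h, if_true]; ring
        · simp only [h, if_false]; ring
      rw [Finset.sum_congr rfl fun s _ => this s, Finset.sum_sub_distrib, Finset.sum_neg_distrib,
        Finset.sum_ite_eq' univ r]
      simp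
    have h3 : ∑ s, f (Pi.single s 1) ≤ M := by
      rw [hM]; exact Finset.sum_le_sum fun s _ => le_abs_self _
    have h4 : -(x * f (Pi.single r 1)) = M + (-f (Pi.single r 1)) := by
      have h5 : -f (Pi.single r 1) ≠ 0 := by
        intro h0
        linarith
      have h6 : x * (-f (Pi.single r 1)) = M + (-f (Pi.single r 1)) := by
        rw [hx, add_mul, div_mul_cancel₀ _ h5, one_mul]
      linarith
    rw [h2, h4] at h1
    linarith
  have hsum : 0 < ∑ r, f (Pi.single r 1) := by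
    have h1 := hf1 (fun _ => -1) (fun _ => by norm_num)
    rw [hrep] at h1
    simp only [mul_neg, mul_one, Finset.sum_neg_distrib] at h1
    linarith
  refine ⟨fun r => f (Pi.single r 1) / ∑ s, f (Pi.single s 1), fun r => div_nonneg (hpos r) hsum.le,
    ?_, ?_⟩
  · rw [← Finset.sum_div, div_self hsum.ne']
  · intro v hv
    have h1 := hG v hv
    rw [hrep] at h1
    have : ∑ r, f (Pi.single r 1) / (∑ s, f (Pi.single s 1)) * v r =
        (∑ r, f (Pi.single r 1) * v r) / ∑ s, f (Pi.single s 1) := by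
      rw [Finset.sum_div]
      refine Finset.sum_congr rfl fun r _ => ?_
      ring
    rw [this]
    exact div_nonneg h1 hsum.le

end Pool.Agent.X163.Ak.Geo
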