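import Pool.Agent.X163.Ak.Mink
import Pool.Agent.X163.Ak.Szem

/-! Covering numbers of the layers `{a r + t r}` of an arbitrary selection, and patterns of
parameters `t`. -/

set_option autoImplicit false

open Finset

namespace Pool.Agent.X163.Ak

open Pool.Agent.W904.AK Pool.Agent.W814.BB

/-- differences at one scale, for a family of layers -/
theorem mink_fam {ms : Finset ℕ} {c : ℝ} (hc : 0 ≤ c) (hS : SliceBound ms c) {k : ℕ}
    (hk : ∀ m ∈ ms, m < k) {n : ℕ} {R : Set (EuclideanSpace ℝ (Fin n))}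
    (a : EuclideanSpace ℝ (Fin n) → EuclideanSpace ℝ (Fin n)) {δ : ℝ} (hδ : 0 < δ) (N : ℕ)
    (hcov : ∀ m ∈ ms, ∃ P : Finset (EuclideanSpace ℝ (Fin n)), P.card ≤ N ∧
      ∀ r ∈ R, a r + (m : ℝ) • r ∈ ⋃ x ∈ P, Metric.ball x δ)
    (D : Finset (Fin n → ℤ)) (hD : ∀ d ∈ D, ∃ r ∈ R, fl δ r = d) :
    (D.card : ℝ) ≤ (((k + 2) ^ n * N : ℕ) : ℝ) ^ c := by
  classical
  have h1 : ∀ d : Fin n → ℤ, ∃ r : EuclideanSpace ℝ (Fin n), d ∈ D → r ∈ R ∧ fl δ r = d := by
    intro d
    by_cases hd : d ∈ D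
    · obtain ⟨r, hr, hrd⟩ := hD d hd
      exact ⟨r, fun _ => ⟨hr, hrd⟩⟩
    · exact ⟨0, fun h => absurd h hd⟩
  choose r har using h1
  obtain ⟨G, hG⟩ : ∃ G : Finset ((Fin n → ℤ) × (Fin n → ℤ)),
    G = D.image fun d => (fl δ (a (r d)), d) := ⟨_, rfl⟩
  have hGs : (G.image Prod.snd).card = D.card := by
    rw [hG, Finset.image_image]
    have : (Prod.snd ∘ fun d : Fin n → ℤ => (fl δ (a (r d)), d)) = id := rfl
    rw [this, Finset.image_id]
  have h2 := slice_n hc hS G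
  rw [hGs] at h2
  refine h2.trans (Real.rpow_le_rpow (Nat.cast_nonneg _) ?_ hc)
  rw [Nat.cast_le]
  refine Finset.sup_le fun m hm => ?_
  have hmk := hk m hm
  obtain ⟨P, hPN, hP⟩ := hcov m hm
  have hsub : (G.image fun g => g.1 + (m : ℤ) • g.2) ⊆ P.biUnion fun x =>
      Fintype.piFinset fun i => Finset.Icc (⌊x i / δ⌋ - 1 - m) (⌊x i / δ⌋ + 1) := by
    intro z hz
    obtain ⟨g, hg, rfl⟩ := Finset.mem_image.1 hz
    rw [hG] at hg
    obtain ⟨d, hd, rfl⟩ := Finset.mem_image.1 hg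
    obtain ⟨e0, e1⟩ := har d hd
    have e3 := hP (r d) e0
    simp only [Set.mem_iUnion, Metric.mem_ball, exists_prop] at e3
    obtain ⟨x, hx, hxd⟩ := e3
    refine Finset.mem_biUnion.2 ⟨x, hx, ?_⟩
    rw [Fintype.mem_piFinset]
    intro i
    have e4 : |(a (r d)) i + m * (r d) i - x i| < δ := by
      refine lt_of_le_of_lt ?_ hxd
      rw [dist_eq_norm]
      have := PiLp.norm_apply_le (a (r d) + (m : ℝ) • r d - x) i
      rw [Real.norm_eq_abs] at this
      exact this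
    have e5 := fl_prog hδ e4
    have e6 : (fl δ (a (r d)) + (m : ℤ) • d) i = ⌊(a (r d)) i / δ⌋ + (m : ℤ) * ⌊(r d) i / δ⌋ := by
      have : d i = ⌊(r d) i / δ⌋ := (congrFun e1 i).symm
      rw [Pi.add_apply, Pi.smul_apply, smul_eq_mul, this]; rfl
    rw [e6]
    exact e5
  refine (Finset.card_le_card hsub).trans (Finset.card_biUnion_le.trans ?_)
  refine (Finset.sum_le_card_nsmul _ _ ((k + 2) ^ n) fun x _ => ?_).trans ?_
  · rw [Fintype.card_piFinset]
    refine (Finset.prod_le_pow_card _ _ (k + 2) fun i _ => ?_).trans (le_of_eq ?_)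
    · rw [Int.card_Icc]; omega
    · rw [Finset.card_univ, Fintype.card_fin]
  · rw [smul_eq_mul, Nat.mul_comm]
    exact Nat.mul_le_mul_left _ hPN

/-- covering numbers of the set of differences, from the layers of a pattern -/
theorem cover_fam {ms : Finset ℕ} {c : ℝ} (hc : 0 ≤ c) (hS : SliceBound ms c) {k : ℕ}
    (hk : ∀ m ∈ ms, m < k) {n : ℕ} {R : Set (EuclideanSpace ℝ (Fin n))}
    (a : EuclideanSpace ℝ (Fin n) → EuclideanSpace ℝ (Fin n)) {δ : ℝ} (hδ : 0 < δ) (N : ℕ)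
    (hcov : ∀ m ∈ ms, ∃ P : Finset (EuclideanSpace ℝ (Fin n)), P.card ≤ N ∧
      ∀ r ∈ R, a r + (m : ℝ) • r ∈ ⋃ x ∈ P, Metric.ball x δ) :
    ∃ T : Finset (EuclideanSpace ℝ (Fin n)), (R ⊆ ⋃ x ∈ T, Metric.ball x ((n + 1) * δ)) ∧
      (T.card : ℝ) ≤ (((k + 2) ^ n * N : ℕ) : ℝ) ^ c := by
  classical
  have key := fun D hD => mink_fam hc hS hk a hδ N hcov D hD
  have hfin : (fl δ '' R).Finite := by
    by_contra hinf
    obtain ⟨N', hN⟩ := exists_nat_gt ((((k + 2) ^ n * N : ℕ) : ℝ) ^ c)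
    obtain ⟨t, ht, hcard⟩ := Set.Infinite.exists_subset_card_eq hinf N'
    have h1 := key t fun d hd => by
      obtain ⟨r, hr, hrd⟩ := ht hd
      exact ⟨r, hr, hrd⟩
    rw [hcard] at h1
    linarith
  refine ⟨hfin.toFinset.image fun d => WithLp.toLp 2 fun i => δ * (d i : ℝ), fun r hr => ?_, ?_⟩
  · simp only [Set.mem_iUnion, Metric.mem_ball, exists_prop]
    refine ⟨_, Finset.mem_image.2 ⟨fl δ r, hfin.mem_toFinset.2 ⟨r, hr, rfl⟩, rfl⟩, ?_⟩
    rw [EuclideanSpace.dist_eq]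
    have hi : ∀ i, dist (r i) (δ * ((fl δ r) i : ℝ)) ^ 2 ≤ δ ^ 2 := by
      intro i
      have h1 := Int.floor_le (r i / δ)
      have h2 := Int.lt_floor_add_one (r i / δ)
      rw [le_div_iff₀ hδ] at h1
      rw [div_lt_iff₀ hδ] at h2
      rw [Real.dist_eq, sq_abs]
      have e : (fl δ r) i = ⌊r i / δ⌋ := rfl
      rw [e]
      refine pow_le_pow_left₀ (by linarith) (by linarith) 2
    refine lt_of_le_of_lt (Real.sqrt_le_sqrt (Finset.sum_le_sum fun i _ => hi i)) ?_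
    rw [Finset.sum_const, Finset.card_univ, Fintype.card_fin, nsmul_eq_mul,
      Real.sqrt_lt' (by positivity)]
    have hn : (0:ℝ) ≤ n := Nat.cast_nonneg n
    nlinarith [sq_pos_of_pos hδ, mul_nonneg hn (sq_nonneg δ)]
  · refine le_trans ?_ (key hfin.toFinset fun d hd => by
      obtain ⟨r, hr, hrd⟩ := hfin.mem_toFinset.1 hd
      exact ⟨r, hr, hrd⟩)
    exact_mod_cast Finset.card_image_le

/-- the same for a homothetic copy `β + α m` of the pattern -/
theorem cover_homothetic {ms : Finset ℕ} {c : ℝ} (hc : 0 ≤ c) (hS : SliceBound ms c) {k : ℕ}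
    (hk : ∀ m ∈ ms, m < k) {n : ℕ} {R : Set (EuclideanSpace ℝ (Fin n))}
    (a : EuclideanSpace ℝ (Fin n) → EuclideanSpace ℝ (Fin n)) {δ : ℝ} (hδ : 0 < δ) (N : ℕ)
    {β α : ℝ} (hα : α ≠ 0)
    (hcov : ∀ m ∈ ms, ∃ P : Finset (EuclideanSpace ℝ (Fin n)), P.card ≤ N ∧
      ∀ r ∈ R, a r + (β + α * m) • r ∈ ⋃ x ∈ P, Metric.ball x δ) :
    ∃ T : Finset (EuclideanSpace ℝ (Fin n)), (R ⊆ ⋃ x ∈ T, Metric.ball x ((n + 1) * δ / |α|)) ∧
      (T.card : ℝ) ≤ (((k + 2) ^ n * N : ℕ) : ℝ) ^ c := by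
  classical
  obtain ⟨T, hT1, hT2⟩ := cover_fam hc hS hk (R := {r | α⁻¹ • r ∈ R})
    (fun r => a (α⁻¹ • r) + β • (α⁻¹ • r)) hδ N (by
      intro m hm
      obtain ⟨P, hP1, hP2⟩ := hcov m hm
      refine ⟨P, hP1, fun r hr => ?_⟩
      have h1 := hP2 _ hr
      have h2 : a (α⁻¹ • r) + β • (α⁻¹ • r) + (m : ℝ) • r =
          a (α⁻¹ • r) + (β + α * m) • (α⁻¹ • r) := by
        rw [add_smul, mul_comm α (m : ℝ), mul_smul, smul_inv_smul₀ hα, add_assoc]
      rw [h2]
      exact h1)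
  refine ⟨T.image fun x => α⁻¹ • x, fun r hr => ?_, ?_⟩
  · have h1 := hT1 (show α • r ∈ {r | α⁻¹ • r ∈ R} by
      simp only [Set.mem_ofPred_eq, inv_smul_smul₀ hα]; exact hr)
    simp only [Set.mem_iUnion, Metric.mem_ball, exists_prop] at h1 ⊢
    obtain ⟨x, hx, hd⟩ := h1
    refine ⟨α⁻¹ • x, mem_image_of_mem _ hx, ?_⟩
    have h2 : dist r (α⁻¹ • x) = |α|⁻¹ * dist (α • r) x := by
      rw [← Real.norm_eq_abs, ← norm_inv, ← dist_smul₀, inv_smul_smul₀ hα]
    rw [h2, inv_mul_eq_div]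
    exact div_lt_div_of_pos_right hd (abs_pos.2 hα)
  · refine le_trans ?_ hT2
    exact_mod_cast card_image_le

/-- Szemerédi's theorem for a finite set of natural numbers -/
theorem szem_nat (ms : Finset ℕ) (hms : ms.Nonempty) (θ : ℝ) (hθ : 0 < θ) :
    ∃ k₀ : ℕ, ∀ k : ℕ, k₀ ≤ k → ∀ (s : ℤ) (E : Finset ℤ), E ⊆ Ico s (s + k) →
      θ * k < E.card → ∃ x m : ℤ, 1 ≤ m ∧ ∀ a ∈ ms, x + m * (a : ℤ) ∈ E := by
  obtain ⟨q, hq⟩ : ∃ q, ms.card = q + 1 := ⟨ms.card - 1, by have := hms.card_pos; omega⟩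
  obtain ⟨e⟩ : Nonempty (↥ms ≃ Fin (q + 1)) := ⟨ms.equivFinOfCardEq hq⟩
  obtain ⟨k₀, h⟩ := szem q (fun a => ((e.symm a).1 : ℤ)) θ hθ
  refine ⟨k₀, fun k hk s E hE hc => ?_⟩
  obtain ⟨x, m, hm, hx⟩ := h k hk s E hE hc
  refine ⟨x, m, hm, fun a ha => ?_⟩
  have := hx (e ⟨a, ha⟩)
  simpa using this

open MeasureTheory in
/-- sampling a dense measurable set by progressions -/
theorem sample {M : Set ℝ} (hM : MeasurableSet M) {u L θ : ℝ} (hL : 0 < L)
    (hMu : M ⊆ Set.Icc u (u + L)) (hvol : ENNReal.ofReal (θ * L) < volume M) {k : ℕ} (hk : 0 < k)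
    (hθ : 0 ≤ θ) :
    ∃ x : ℝ, ∃ E : Finset ℤ, E ⊆ Ico 0 (0 + (k : ℤ)) ∧ θ * k < E.card ∧
      ∀ j ∈ E, x + (L / k) * (j : ℝ) ∈ M := by
  classical
  obtain ⟨l, hl⟩ : ∃ l : ℝ, l = L / k := ⟨_, rfl⟩
  have hk0 : (0 : ℝ) < k := by exact_mod_cast hk
  have hl0 : 0 < l := by rw [hl]; positivity
  have hkl : k * l = L := by rw [hl]; field_simp
  by_contra hno
  push Not at hno
  -- every sample is thin
  have hthin : ∀ x : ℝ, (((range k).filter (fun j : ℕ => x + l * (j : ℝ) ∈ M)).card : ℝ) ≤ θ * k := by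
    intro x
    by_contra h
    push Not at h
    obtain ⟨j, hj, hjM⟩ := hno x (((range k).filter (fun j : ℕ => x + l * (j : ℝ) ∈ M)).image
      (fun j : ℕ => (j : ℤ))) (by
        intro j hj
        obtain ⟨i, hi, rfl⟩ := mem_image.1 hj
        have := mem_range.1 (mem_filter.1 hi).1
        rw [mem_Ico]
        omega) (by
        rw [card_image_of_injective _ (fun a b h => by exact_mod_cast h)]
        exact h)
    obtain ⟨i, hi, rfl⟩ := mem_image.1 hj
    apply hjM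
    have := (mem_filter.1 hi).2
    rw [← hl]
    simpa using this
  -- the measure of M as an integral over a short interval
  have hcovM : M ⊆ (⋃ j ∈ range k, M ∩ Set.Ico (u + l * j) (u + l * j + l)) ∪ {u + L} := by
    intro y hy
    obtain ⟨h1, h2⟩ := hMu hy
    rcases eq_or_lt_of_le h2 with h | h
    · right; simpa using h
    · left
      have h3 : 0 ≤ (y - u) / l := div_nonneg (by linarith) hl0.le
      have h4 : ⌊(y - u) / l⌋₊ < k := by
        rw [Nat.floor_lt h3, div_lt_iff₀ hl0, hkl]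
        linarith
      simp only [Set.mem_iUnion]
      refine ⟨⌊(y - u) / l⌋₊, mem_range.2 h4, hy, ?_, ?_⟩
      · have := Nat.floor_le h3
        rw [le_div_iff₀ hl0] at this
        linarith
      · have := Nat.lt_floor_add_one ((y - u) / l)
        rw [div_lt_iff₀ hl0] at this
        linarith
  have hpiece : ∀ j : ℕ, volume (M ∩ Set.Ico (u + l * j) (u + l * j + l)) =
      ∫⁻ x in Set.Ico u (u + l), (if x + l * (j : ℝ) ∈ M then 1 else 0) := by
    intro j
    have h1 : volume (M ∩ Set.Ico (u + l * j) (u + l * j + l)) =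
        volume ((fun x => x + l * (j : ℝ)) ⁻¹' (M ∩ Set.Ico (u + l * j) (u + l * j + l))) :=
      (measure_preimage_add_right volume (l * (j : ℝ)) _).symm
    rw [h1]
    have h2 : (fun x => x + l * (j : ℝ)) ⁻¹' (M ∩ Set.Ico (u + l * j) (u + l * j + l)) =
        ((fun x => x + l * (j : ℝ)) ⁻¹' M) ∩ Set.Ico u (u + l) := by
      ext x
      simp only [Set.mem_preimage, Set.mem_inter_iff, Set.mem_Ico]
      constructor
      · rintro ⟨h3, h4, h5⟩; exact ⟨h3, by linarith, by linarith⟩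
      · rintro ⟨h3, h4, h5⟩; exact ⟨h3, by linarith, by linarith⟩
    rw [h2]
    have hmeas : MeasurableSet ((fun x => x + l * (j : ℝ)) ⁻¹' M) :=
      (measurable_id.add_const _) hM
    rw [← Measure.restrict_apply hmeas, ← lintegral_indicator_one hmeas]
    rfl
  have htot : volume M ≤ ENNReal.ofReal (θ * L) := by
    calc volume M ≤ volume (⋃ j ∈ range k, M ∩ Set.Ico (u + l * j) (u + l * j + l)) +
          volume ({u + L} : Set ℝ) := (measure_mono hcovM).trans (measure_union_le _ _)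
      _ = volume (⋃ j ∈ range k, M ∩ Set.Ico (u + l * j) (u + l * j + l)) := by simp
      _ ≤ ∑ j ∈ range k, volume (M ∩ Set.Ico (u + l * j) (u + l * j + l)) :=
          measure_biUnion_finset_le _ _
      _ = ∑ j ∈ range k, ∫⁻ x in Set.Ico u (u + l), (if x + l * (j : ℝ) ∈ M then 1 else 0) :=
          sum_congr rfl fun j _ => hpiece j
      _ = ∫⁻ x in Set.Ico u (u + l), ∑ j ∈ range k, (if x + l * (j : ℝ) ∈ M then 1 else 0) := by
          rw [lintegral_finsetSum]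
          intro j _
          exact Measurable.ite ((measurable_id.add_const _) hM) measurable_const measurable_const
      _ ≤ ∫⁻ x in Set.Ico u (u + l), ENNReal.ofReal (θ * k) := by
          refine lintegral_mono fun x => ?_
          have h1 : (∑ j ∈ range k, (if x + l * (j : ℝ) ∈ M then (1 : ENNReal) else 0)) =
              (((range k).filter (fun j : ℕ => x + l * (j : ℝ) ∈ M)).card : ENNReal) := by
            rw [card_filter]; push_cast; rfl
          show (∑ j ∈ range k, (if x + l * (j : ℝ) ∈ M then (1 : ENNReal) else 0)) ≤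
            ENNReal.ofReal (θ * k)
          rw [h1, ← ENNReal.ofReal_natCast]
          exact ENNReal.ofReal_le_ofReal (hthin x)
      _ = ENNReal.ofReal (θ * L) := by
          rw [lintegral_const, Measure.restrict_apply MeasurableSet.univ, Set.univ_inter,
            Real.volume_Ico, ← ENNReal.ofReal_mul (by positivity)]
          congr 1
          rw [← hkl]
          ring
  exact absurd hvol (not_lt.2 htot)

end Pool.Agent.X163.Ak
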