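import Mathlib

/-! Images of sets of positive measure under differentiable maps of large rank, and layers
`{a r + l • r}` of a differentiable selection. -/

set_option autoImplicit false
set_option linter.unusedSectionVars false
open MeasureTheory Set Filter Topology Module
open scoped NNReal ENNReal

namespace Pool.Agent.X163.Ak

variable {E F : Type*} [NormedAddCommGroup E] [NormedSpace ℝ E] [FiniteDimensional ℝ E]
  [MeasurableSpace E] [BorelSpace E] [NormedAddCommGroup F] [NormedSpace ℝ F]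
  [FiniteDimensional ℝ F]

/-- a linear map onto a space of dimension at most the rank -/
theorem exists_surj (A : E →L[ℝ] F) {m : ℕ} (hm : m ≤ finrank ℝ (LinearMap.range A.toLinearMap)) :
    ∃ P : F →L[ℝ] (Fin m → ℝ), Function.Surjective (P ∘L A) := by
  let W := LinearMap.range A.toLinearMap
  let b := finBasis ℝ W
  let p0 : W →ₗ[ℝ] (Fin m → ℝ) := LinearMap.pi fun i => b.coord (Fin.castLE hm i)
  obtain ⟨p, hp⟩ := LinearMap.exists_extend p0
  refine ⟨LinearMap.toContinuousLinearMap p, fun v => ?_⟩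
  obtain ⟨w, hw⟩ : ∃ w : W, w = ∑ i : Fin m, v i • b (Fin.castLE hm i) := ⟨_, rfl⟩
  obtain ⟨x, hx⟩ := w.2
  refine ⟨x, ?_⟩
  have e1 : p (w : F) = p0 w := by
    have := LinearMap.congr_fun hp w
    simpa using this
  have e2 : (LinearMap.toContinuousLinearMap p ∘L A) x = p (A x) := rfl
  rw [e2, show A x = (w : F) from hx, e1, hw]
  ext j
  simp only [p0, LinearMap.pi_apply, map_sum, map_smul, Basis.coord_apply, Basis.repr_self,
    smul_eq_mul, Finset.sum_apply]
  rw [Finset.sum_eq_single j]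
  · simp
  · intro i _ hij
    rw [Finsupp.single_apply, if_neg]
    · simp
    · intro h
      exact hij (Fin.castLE_injective hm h)
  · intro h; exact absurd (Finset.mem_univ j) h

/-- pieces on which the map is nearly linear -/
theorem piece (μ : Measure E) [μ.IsAddHaarMeasure] (A : E →L[ℝ] F) {m : ℕ}
    (hm : m ≤ finrank ℝ (LinearMap.range A.toLinearMap)) :
    ∃ (P : F →L[ℝ] (Fin m → ℝ)) (δ : ℝ≥0), δ ≠ 0 ∧ ∀ (t : Set E) (f : E → F),
      ApproximatesLinearOn f A t δ → volume (P '' (f '' t)) = 0 → μ t = 0 := by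
  obtain ⟨P, hP⟩ := exists_surj A hm
  obtain ⟨C, hC⟩ : ∃ C, C = P ∘L A := ⟨_, rfl⟩
  rw [← hC] at hP
  let K := LinearMap.ker C.toLinearMap
  obtain ⟨Q0, hQ0⟩ := LinearMap.exists_leftInverse_of_injective K.subtype
    (LinearMap.ker_eq_bot.2 K.subtype_injective)
  let Q : E →L[ℝ] K := LinearMap.toContinuousLinearMap Q0
  have hQ : ∀ x : K, Q (x : E) = x := fun x => LinearMap.congr_fun hQ0 x
  let T : E →ₗ[ℝ] (Fin m → ℝ) × K := (C.prod Q).toLinearMap
  have hTinj : Function.Injective T := by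
    rw [← LinearMap.ker_eq_bot, LinearMap.ker_eq_bot']
    intro x hx
    have h1 : C x = 0 := congrArg Prod.fst hx
    have h2 : Q x = 0 := congrArg Prod.snd hx
    have h3 : x ∈ K := h1
    have h4 := hQ ⟨x, h3⟩
    simp only at h4
    rw [h2] at h4
    exact (congrArg Subtype.val h4).symm
  have hfr : finrank ℝ E = finrank ℝ ((Fin m → ℝ) × K) := by
    rw [finrank_prod, Module.finrank_fin_fun]
    have h1 := LinearMap.finrank_range_add_finrank_ker C.toLinearMap
    have h2 : LinearMap.range C.toLinearMap = ⊤ := LinearMap.range_eq_top.2 hP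
    rw [h2, finrank_top, Module.finrank_fin_fun] at h1
    exact h1.symm
  let e0 : E ≃ₗ[ℝ] (Fin m → ℝ) × K := LinearEquiv.ofInjectiveOfFinrankEq T hTinj hfr
  let e : E ≃L[ℝ] (Fin m → ℝ) × K := e0.toContinuousLinearEquiv
  have he : ∀ x, e x = (C x, Q x) := fun x => rfl
  obtain ⟨δ0, hδ0, hδ1⟩ : ∃ δ0 : ℝ≥0, 0 < δ0 ∧ ∀ (s : Set E) (f : E → E),
      ApproximatesLinearOn f (ContinuousLinearMap.id ℝ E) s δ0 →
        ((1 / 2 : ℝ≥0) : ℝ≥0∞) * μ s ≤ μ (f '' s) := by
    have h1 : ((1 / 2 : ℝ≥0) : ℝ≥0∞) < ENNReal.ofReal |(ContinuousLinearMap.id ℝ E).det| := by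
      have h2 : (ContinuousLinearMap.id ℝ E).det = 1 := by
        unfold ContinuousLinearMap.det
        simp
      rw [h2, abs_one, ENNReal.ofReal_one]
      have h3 : ((1 / 2 : ℝ≥0) : ℝ≥0∞) < ((1 : ℝ≥0) : ℝ≥0∞) := by
        rw [ENNReal.coe_lt_coe]
        exact NNReal.half_lt_self one_ne_zero
      simpa using h3
    obtain ⟨δ, h2, h3⟩ := ((mul_le_addHaar_image_of_lt_det μ (ContinuousLinearMap.id ℝ E) h1).and
      self_mem_nhdsWithin).exists
    exact ⟨δ, h3, h2⟩
  obtain ⟨M, hM⟩ : ∃ M : ℝ≥0, M = ‖(e.symm : (Fin m → ℝ) × K →L[ℝ] E)‖₊ * ‖P‖₊ + 1 := ⟨_, rfl⟩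
  have hM0 : 0 < M := by rw [hM]; positivity
  refine ⟨P, δ0 / M, (div_pos hδ0 hM0).ne', fun t f hf h0 => ?_⟩
  let g : E → E := fun x => e.symm (P (f x), Q x)
  have hg : ApproximatesLinearOn g (ContinuousLinearMap.id ℝ E) t δ0 := by
    intro x hx y hy
    have e1 : g x - g y - (ContinuousLinearMap.id ℝ E) (x - y) =
        e.symm (P (f x - f y - A (x - y)), 0) := by
      have e2 : (ContinuousLinearMap.id ℝ E) (x - y) = e.symm (e (x - y)) := by simp
      rw [e2]
      simp only [g]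
      rw [← map_sub, ← map_sub, he]
      congr 1
      rw [Prod.mk_sub_mk, Prod.mk_sub_mk]
      congr 1
      · rw [map_sub P, map_sub P, hC]; rfl
      · rw [map_sub Q, sub_self]
    rw [e1]
    have n1 : ‖e.symm (P (f x - f y - A (x - y)), (0 : K))‖ ≤
        ‖(e.symm : (Fin m → ℝ) × K →L[ℝ] E)‖ * (‖P‖ * ((δ0 / M : ℝ≥0) * ‖x - y‖)) := by
      refine ((e.symm : (Fin m → ℝ) × K →L[ℝ] E).le_opNorm _).trans ?_
      gcongr
      rw [Prod.norm_mk, norm_zero, max_eq_left (norm_nonneg _)]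
      refine (P.le_opNorm _).trans ?_
      gcongr
      exact hf x hx y hy
    refine n1.trans ?_
    have n2 : ‖(e.symm : (Fin m → ℝ) × K →L[ℝ] E)‖ * ‖P‖ ≤ M := by
      rw [hM]; push_cast; linarith
    have n3 : ((δ0 / M : ℝ≥0) : ℝ) = δ0 / M := by push_cast; ring
    rw [n3, show ‖(e.symm : (Fin m → ℝ) × K →L[ℝ] E)‖ * (‖P‖ * ((δ0 : ℝ) / M * ‖x - y‖)) =
      (‖(e.symm : (Fin m → ℝ) × K →L[ℝ] E)‖ * ‖P‖) * ((δ0 : ℝ) / M * ‖x - y‖) by ring]
    calc (‖(e.symm : (Fin m → ℝ) × K →L[ℝ] E)‖ * ‖P‖) * ((δ0 : ℝ) / M * ‖x - y‖)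
        ≤ M * ((δ0 : ℝ) / M * ‖x - y‖) := by gcongr
      _ = δ0 * ‖x - y‖ := by
        have : (M : ℝ) ≠ 0 := by exact_mod_cast hM0.ne'
        field_simp
  have h1 := hδ1 t g hg
  have h2 : μ (g '' t) = 0 := by
    let ν : Measure K := Measure.addHaar
    have hsub : g '' t ⊆ e ⁻¹' ((P '' (f '' t)) ×ˢ (univ : Set K)) := by
      rintro _ ⟨x, hx, rfl⟩
      simp only [g, mem_preimage, ContinuousLinearEquiv.apply_symm_apply]
      exact ⟨⟨_, ⟨x, hx, rfl⟩, rfl⟩, mem_univ _⟩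
    refine measure_mono_null hsub ?_
    have h3 : (μ.map e) ((P '' (f '' t)) ×ˢ (univ : Set K)) = 0 := by
      have : (μ.map e).IsAddHaarMeasure := e.isAddHaarMeasure_map μ
      have h5 := Measure.isAddLeftInvariant_eq_smul (μ.map e) ((volume : Measure (Fin m → ℝ)).prod ν)
      rw [h5, Measure.smul_apply, Measure.prod_prod, h0, zero_mul, smul_zero]
    have h4 := e.toHomeomorph.toMeasurableEquiv.map_apply (μ := μ)
      ((P '' (f '' t)) ×ˢ (univ : Set K))
    have h5 : (μ.map (e.toHomeomorph.toMeasurableEquiv)) = μ.map e := rfl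
    rw [h5, h3] at h4
    exact h4.symm
  rw [h2] at h1
  have h3 := le_antisymm h1 bot_le
  rcases mul_eq_zero.1 h3 with h | h
  · exfalso
    have : (1 / 2 : ℝ≥0) = 0 := by exact_mod_cast h
    norm_num at this
  · exact h

/-- images of sets of positive measure under maps of rank at least `m` -/
theorem rank_image (μ : Measure E) [μ.IsAddHaarMeasure] {f : E → F} {f' : E → E →L[ℝ] F}
    {s : Set E} {m : ℕ} (h : ∀ x ∈ s, HasFDerivWithinAt f (f' x) s x)
    (hr : ∀ x ∈ s, m ≤ finrank ℝ (LinearMap.range (f' x).toLinearMap)) (hs : μ s ≠ 0) :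
    ∃ P : F →L[ℝ] (Fin m → ℝ), volume (P '' (f '' s)) ≠ 0 := by
  have key : ∀ A : E →L[ℝ] F, ∃ (P : F →L[ℝ] (Fin m → ℝ)) (δ : ℝ≥0), δ ≠ 0 ∧
      (m ≤ finrank ℝ (LinearMap.range A.toLinearMap) → ∀ (t : Set E) (f : E → F),
        ApproximatesLinearOn f A t δ → volume (P '' (f '' t)) = 0 → μ t = 0) := by
    intro A
    by_cases hA : m ≤ finrank ℝ (LinearMap.range A.toLinearMap)
    · obtain ⟨P, δ, h1, h2⟩ := piece μ A hA
      exact ⟨P, δ, h1, fun _ => h2⟩
    · exact ⟨0, 1, one_ne_zero, fun h => absurd h hA⟩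
  choose P δ hδ0 hδ using key
  by_contra hcon
  push Not at hcon
  obtain ⟨t, A, -, -, hsub, happ, hA⟩ :=
    exists_partition_approximatesLinearOn_of_hasFDerivWithinAt f s f' h δ hδ0
  have hne : s.Nonempty := by
    rw [nonempty_iff_ne_empty]; rintro rfl; exact hs measure_empty
  apply hs
  have hss : s ⊆ ⋃ n, s ∩ t n := by rw [← inter_iUnion]; exact subset_inter subset_rfl hsub
  refine measure_mono_null hss (measure_iUnion_null fun n => ?_)
  obtain ⟨y, hy, hAy⟩ := hA hne n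
  exact hδ (A n) (by rw [hAy]; exact hr y hy) _ _ (happ n)
    (measure_mono_null (image_mono (image_mono inter_subset_left)) (hcon (P (A n))))

/-- the dimensions of the kernels of the maps `T + l` -/
theorem sum_ker (T : E →ₗ[ℝ] E) (Λ : Finset ℝ) :
    ∑ l ∈ Λ, finrank ℝ (LinearMap.ker (T + l • LinearMap.id)) ≤ finrank ℝ E := by
  have h1 : ∀ l : ℝ, finrank ℝ (LinearMap.ker (T + l • LinearMap.id)) ≤
      T.charpoly.roots.count (-l) := fun l => by
    have := LinearMap.finrank_eigenspace_le T (-l)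
    rw [Polynomial.count_roots]
    have hk : LinearMap.ker (T + l • LinearMap.id) = Module.End.eigenspace T (-l) := by
      ext x
      rw [LinearMap.mem_ker, Module.End.mem_eigenspace_iff, LinearMap.add_apply,
        LinearMap.smul_apply, LinearMap.id_apply, neg_smul, add_eq_zero_iff_eq_neg]
    rw [hk]
    exact this
  calc ∑ l ∈ Λ, finrank ℝ (LinearMap.ker (T + l • LinearMap.id))
      ≤ ∑ l ∈ Λ, T.charpoly.roots.count (-l) := Finset.sum_le_sum fun l _ => h1 l
    _ = ∑ l ∈ Λ.image (fun l => -l), T.charpoly.roots.count l := by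
      rw [Finset.sum_image (fun a _ b _ h => neg_injective h)]
    _ ≤ Multiset.card T.charpoly.roots := by
      have h2 : ∑ l ∈ Λ.image (fun l => -l), T.charpoly.roots.count l =
          ∑ l ∈ Λ.image (fun l => -l),
            (T.charpoly.roots.filter (fun x => x ∈ Λ.image (fun l => -l))).count l :=
        Finset.sum_congr rfl fun l hl => by rw [Multiset.count_filter_of_pos hl]
      rw [h2, Multiset.sum_count_eq_card (fun a ha => (Multiset.mem_filter.1 ha).2)]
      exact Multiset.card_le_card (Multiset.filter_le _ _)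
    _ ≤ finrank ℝ E := by
      refine (Polynomial.card_roots' _).trans (le_of_eq ?_)
      rw [LinearMap.charpoly_natDegree]

/-- one layer out of many -/
theorem one_layer (μ : Measure E) [μ.IsAddHaarMeasure] {R : Set E} (hR : μ R ≠ 0) {a : E → E}
    (ha : ∀ᵐ r ∂μ, r ∈ R → DifferentiableWithinAt ℝ a R r) {m : ℕ} (hm : m ≤ finrank ℝ E)
    (Λ : Finset ℝ) (hΛ : finrank ℝ E / (finrank ℝ E - m + 1) < Λ.card) :
    ∃ l ∈ Λ, ∃ P : E →L[ℝ] (Fin m → ℝ), volume (P '' ((fun r => a r + l • r) '' R)) ≠ 0 := by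
  obtain ⟨R', hR'⟩ : ∃ R', R' = {r | r ∈ R ∧ DifferentiableWithinAt ℝ a R r} := ⟨_, rfl⟩
  have hsub : R' ⊆ R := by rw [hR']; exact fun r hr => hr.1
  have hR0 : μ R' ≠ 0 := by
    intro h0
    apply hR
    refine measure_mono_null (t := R' ∪ {r | ¬ (r ∈ R → DifferentiableWithinAt ℝ a R r)}) ?_
      (measure_union_null h0 ha)
    intro r hr
    by_cases h : DifferentiableWithinAt ℝ a R r
    · left; rw [hR']; exact ⟨hr, h⟩
    · right; exact fun h' => h (h' hr)
  obtain ⟨a', ha'⟩ : ∃ a' : E → E →L[ℝ] E, ∀ r ∈ R', HasFDerivWithinAt a (a' r) R r :=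
    ⟨fun r => fderivWithin ℝ a R r, fun r hr => by
      rw [hR'] at hr; exact hr.2.hasFDerivWithinAt⟩
  obtain ⟨s, hs⟩ : ∃ s : ℝ → Set E, ∀ l, s l = {r | r ∈ R' ∧ m ≤ finrank ℝ (LinearMap.range
      (a' r + l • ContinuousLinearMap.id ℝ E).toLinearMap)} := ⟨_, fun _ => rfl⟩
  have hcov : R' ⊆ ⋃ l ∈ Λ, s l := by
    intro r hr
    by_contra hcon
    simp only [mem_iUnion, not_exists] at hcon
    have h1 : ∀ l ∈ Λ, finrank ℝ E - m + 1 ≤
        finrank ℝ (LinearMap.ker ((a' r).toLinearMap + l • LinearMap.id)) := by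
      intro l hl
      by_contra hlt
      push Not at hlt
      apply hcon l hl
      rw [hs]
      refine ⟨hr, ?_⟩
      have h2 := LinearMap.finrank_range_add_finrank_ker ((a' r).toLinearMap + l • LinearMap.id)
      have h3 : (a' r + l • ContinuousLinearMap.id ℝ E).toLinearMap =
          (a' r).toLinearMap + l • LinearMap.id := rfl
      rw [h3]
      omega
    have h2 := (Finset.sum_le_sum h1).trans (sum_ker (a' r).toLinearMap Λ)
    rw [Finset.sum_const, smul_eq_mul] at h2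
    have h3 := Nat.lt_mul_div_succ (finrank ℝ E) (Nat.succ_pos (finrank ℝ E - m))
    have h4 : (finrank ℝ E - m + 1) * (finrank ℝ E / (finrank ℝ E - m + 1) + 1) ≤
        (finrank ℝ E - m + 1) * Λ.card := Nat.mul_le_mul_left _ hΛ
    rw [Nat.mul_comm] at h2
    exact absurd (h3.trans_le (h4.trans h2)) (lt_irrefl _)
  obtain ⟨l, hl, hl0⟩ : ∃ l ∈ Λ, μ (s l) ≠ 0 := by
    by_contra hcon
    push Not at hcon
    exact hR0 (measure_mono_null hcov ((measure_biUnion_null_iff Λ.countable_toSet).2 hcon))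
  have hsl : s l ⊆ R' := by rw [hs]; exact fun r hr => hr.1
  obtain ⟨P, hP⟩ := rank_image μ (f := fun r => a r + l • r)
    (f' := fun r => a' r + l • ContinuousLinearMap.id ℝ E) (s := s l) (m := m)
    (fun r hr => ((ha' r (hsl hr)).add ((hasFDerivWithinAt_id r R).const_smul l)).mono
      (hsl.trans hsub)) (fun r hr => by rw [hs] at hr; exact hr.2) hl0
  exact ⟨l, hl, P, fun h0 => hP (measure_mono_null
    (image_mono (image_mono (hsl.trans hsub))) h0)⟩

/-- the exceptional layers -/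
theorem exceptional (μ : Measure E) [μ.IsAddHaarMeasure] {R : Set E} (hR : μ R ≠ 0) {a : E → E}
    (ha : ∀ᵐ r ∂μ, r ∈ R → DifferentiableWithinAt ℝ a R r) {m : ℕ} (hm : m ≤ finrank ℝ E) :
    {l : ℝ | ∀ P : E →L[ℝ] (Fin m → ℝ),
      volume (P '' ((fun r => a r + l • r) '' R)) = 0}.encard ≤
      ((finrank ℝ E / (finrank ℝ E - m + 1) : ℕ) : ℕ∞) := by
  by_contra hcon
  push Not at hcon
  have h1 : (((finrank ℝ E / (finrank ℝ E - m + 1) + 1 : ℕ)) : ℕ∞) ≤
      {l : ℝ | ∀ P : E →L[ℝ] (Fin m → ℝ),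
        volume (P '' ((fun r => a r + l • r) '' R)) = 0}.encard := by
    push_cast
    exact Order.add_one_le_of_lt hcon
  obtain ⟨t, ht, hcard⟩ := Set.exists_subset_encard_eq h1
  have hfin : t.Finite := Set.finite_of_encard_eq_coe hcard
  have hc : hfin.toFinset.card = finrank ℝ E / (finrank ℝ E - m + 1) + 1 := by
    rw [hfin.encard_eq_coe_toFinset_card] at hcard
    exact_mod_cast hcard
  obtain ⟨l, hl, P, hP⟩ := one_layer μ hR ha hm hfin.toFinset (by omega)
  exact hP (ht (hfin.mem_toFinset.1 hl) P)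

/-- null sets -/
theorem null_image (μ : Measure E) [μ.IsAddHaarMeasure] {X : Set E} (h : μ X = 0)
    (P : E →L[ℝ] (Fin (finrank ℝ E) → ℝ)) : volume (P '' X) = 0 := by
  let e : E ≃L[ℝ] (Fin (finrank ℝ E) → ℝ) :=
    (LinearEquiv.ofFinrankEq E (Fin (finrank ℝ E) → ℝ) (by simp)).toContinuousLinearEquiv
  have h1 : P '' X = (P ∘L (e.symm : (Fin (finrank ℝ E) → ℝ) →L[ℝ] E)) '' (e '' X) := by
    rw [image_image]
    refine image_congr fun x _ => ?_
    simp
  rw [h1, Measure.addHaar_image_continuousLinearMap]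
  have h2 : volume (e '' X) = 0 := by
    have : (μ.map e).IsAddHaarMeasure := e.isAddHaarMeasure_map μ
    have h5 := Measure.isAddLeftInvariant_eq_smul (volume : Measure (Fin (finrank ℝ E) → ℝ)) (μ.map e)
    rw [h5, Measure.smul_apply]
    have h4 := e.toHomeomorph.toMeasurableEquiv.map_apply (μ := μ) (e '' X)
    have h6 : (μ.map (e.toHomeomorph.toMeasurableEquiv)) = μ.map e := rfl
    rw [h6] at h4
    rw [h4]
    have h7 : (e.toHomeomorph.toMeasurableEquiv : E → _) ⁻¹' (e '' X) = X :=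
      e.injective.preimage_image X
    rw [h7, h, smul_zero]
  rw [h2, mul_zero]

/-- dimension of sets with a linear image of positive measure -/
theorem dimH_of_image {X : Set E} {m : ℕ} {P : E →L[ℝ] (Fin m → ℝ)} (h : volume (P '' X) ≠ 0) :
    (m : ℝ≥0∞) ≤ dimH X := by
  have h1 : μH[((m : ℝ≥0) : ℝ)] (P '' X) ≠ 0 := by
    have := MeasureTheory.hausdorffMeasure_pi_real (ι := Fin m)
    rw [Fintype.card_fin] at this
    rw [NNReal.coe_natCast, this]
    exact h
  have h2 := le_dimH_of_hausdorffMeasure_ne_zero h1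
  have h3 := P.lipschitz.dimH_image_le X
  refine le_trans ?_ h3
  simpa using h2

/-- covering numbers of sets with a linear image of positive measure -/
theorem cover_of_image {X : Set E} {m : ℕ} {P : E →L[ℝ] (Fin m → ℝ)} (h : volume (P '' X) ≠ 0) :
    ∃ κ : ℝ, 0 < κ ∧ ∀ δ : ℝ, 0 < δ → ∀ S : Finset E, X ⊆ (⋃ x ∈ S, Metric.ball x δ) →
      κ * δ ^ (-(m : ℝ)) ≤ S.card := by
  obtain ⟨v, hv0, hv⟩ : ∃ v : ℝ, 0 < v ∧ ENNReal.ofReal v ≤ volume (P '' X) := by
    refine ⟨(min (volume (P '' X)) 1).toReal, ENNReal.toReal_pos ?_ ?_, ?_⟩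
    · simp [h]
    · exact ne_top_of_le_ne_top ENNReal.one_ne_top (min_le_right _ _)
    · rw [ENNReal.ofReal_toReal (ne_top_of_le_ne_top ENNReal.one_ne_top (min_le_right _ _))]
      exact min_le_left _ _
  obtain ⟨C, hC⟩ : ∃ C : ℝ, C = ‖P‖ + 1 := ⟨_, rfl⟩
  have hC0 : 0 < C := by rw [hC]; positivity
  refine ⟨v / (2 * C) ^ m, by positivity, fun δ hδ S hS => ?_⟩
  have h1 : P '' X ⊆ ⋃ x ∈ S, Metric.ball (P x) (C * δ) := by
    rintro _ ⟨y, hy, rfl⟩
    have h2 := hS hy
    simp only [mem_iUnion, Metric.mem_ball, exists_prop] at h2 ⊢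
    obtain ⟨x, hx, hyx⟩ := h2
    refine ⟨x, hx, ?_⟩
    rw [dist_eq_norm, ← map_sub]
    refine (P.le_opNorm _).trans_lt ?_
    rw [dist_eq_norm] at hyx
    have : ‖P‖ * ‖y - x‖ ≤ C * ‖y - x‖ := by
      rw [hC]; nlinarith [norm_nonneg (y - x)]
    nlinarith
  have h2 : volume (P '' X) ≤ S.card * ENNReal.ofReal ((2 * (C * δ)) ^ m) := by
    refine (measure_mono h1).trans ((measure_biUnion_finset_le S _).trans ?_)
    refine (Finset.sum_le_sum (g := fun _ => ENNReal.ofReal ((2 * (C * δ)) ^ m))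
      fun x _ => ?_).trans ?_
    · rw [Real.volume_pi_ball _ (by positivity), Fintype.card_fin]
    · rw [Finset.sum_const, nsmul_eq_mul]
  have h3 : ENNReal.ofReal v ≤ ENNReal.ofReal (S.card * (2 * (C * δ)) ^ m) := by
    rw [ENNReal.ofReal_mul (Nat.cast_nonneg _), ENNReal.ofReal_natCast]
    exact hv.trans h2
  have h4 : v ≤ S.card * (2 * (C * δ)) ^ m :=
    (ENNReal.ofReal_le_ofReal_iff (by positivity)).1 h3
  rw [Real.rpow_neg hδ.le, Real.rpow_natCast, div_mul_eq_mul_div, div_le_iff₀ (by positivity),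
    ← div_eq_mul_inv, div_le_iff₀ (by positivity)]
  calc v ≤ S.card * (2 * (C * δ)) ^ m := h4
    _ = S.card * (2 * C) ^ m * δ ^ m := by rw [mul_assoc, ← mul_pow]; ring

end Pool.Agent.X163.Ak
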