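import Mathlib

/-! Random linear maps and the sums-differences inequality with multiplicities: counting. -/

set_option autoImplicit false
set_option linter.unusedSectionVars false

open Finset

namespace Pool.Agent.X163.Ak.Mult

variable {F K : Type} [Field F] [AddCommGroup K] [Module F K] [Fintype K] [DecidableEq F]
  [DecidableEq K]

/-- the random linear map -/
def Phi {r : ℕ} (l : Fin r → K) (x : Fin r → F) : K := ∑ j, x j • l j

theorem phi_sub {r : ℕ} (l : Fin r → K) (x y : Fin r → F) :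
    Phi l (x - y) = Phi l x - Phi l y := by
  unfold Phi
  rw [← sum_sub_distrib]
  exact sum_congr rfl fun j _ => by rw [Pi.sub_apply, sub_smul]

theorem phi_lin {r : ℕ} (l : Fin r → K) (a b : F) (x y : Fin r → F) :
    Phi l (a • x + b • y) = a • Phi l x + b • Phi l y := by
  unfold Phi
  rw [smul_sum, smul_sum, ← sum_add_distrib]
  refine sum_congr rfl fun j _ => ?_
  rw [Pi.add_apply, Pi.smul_apply, Pi.smul_apply, add_smul, smul_assoc, smul_assoc]

theorem phi_single {r : ℕ} (l : Fin r → K) (j : Fin r) (k : K) (x : Fin r → F) :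
    Phi (l + Pi.single j k) x = Phi l x + x j • k := by
  unfold Phi
  simp only [Pi.add_apply, smul_add, sum_add_distrib]
  congr 1
  rw [sum_eq_single j]
  · rw [Pi.single_eq_same]
  · intro i _ hi
    rw [Pi.single_eq_of_ne hi, smul_zero]
  · intro h
    exact absurd (mem_univ j) h

/-- collisions are rare -/
theorem collision {r : ℕ} (x y : Fin r → F) (h : x ≠ y) :
    ((univ : Finset (Fin r → K)).filter (fun l => Phi l x = Phi l y)).card * Fintype.card K ≤
      Fintype.card (Fin r → K) := by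
  obtain ⟨j, hj⟩ : ∃ j, x j ≠ y j := by
    by_contra hcon
    push Not at hcon
    exact h (funext hcon)
  have ht : (x - y) j ≠ 0 := by
    rw [Pi.sub_apply]
    exact sub_ne_zero.2 hj
  rw [← card_univ (α := K), ← card_product, ← card_univ (α := Fin r → K)]
  refine card_le_card_of_injOn (fun z => z.1 + Pi.single j z.2) (fun _ _ => mem_coe.2 (mem_univ _)) ?_
  rintro ⟨l, k⟩ hl ⟨l', k'⟩ hl' heq
  rw [mem_coe, mem_product, mem_filter] at hl hl'
  simp only at heq hl hl'
  have h1 : Phi l (x - y) = 0 := by rw [phi_sub, hl.1.2, sub_self]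
  have h2 : Phi l' (x - y) = 0 := by rw [phi_sub, hl'.1.2, sub_self]
  have h3 := phi_single l j k (x - y)
  have h4 := phi_single l' j k' (x - y)
  rw [heq, h4, h1, h2, zero_add, zero_add] at h3
  have h5 : k' = k := smul_right_injective K ht h3
  subst h5
  have h6 : l = l' := add_right_cancel heq
  rw [h6]

/-- the number of the elements of a fibre -/
def fib {r : ℕ} (W : Finset (Fin r → F)) (l : Fin r → K) (w : K) : ℕ :=
  (W.filter (fun x => Phi l x = w)).card

theorem sum_fib_sq {r : ℕ} (W : Finset (Fin r → F)) (l : Fin r → K) :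
    ∑ w : K, fib W l w ^ 2 = ((W ×ˢ W).filter (fun z => Phi l z.1 = Phi l z.2)).card := by
  have h1 : ∀ w : K, fib W l w ^ 2 = ∑ z ∈ W ×ˢ W, if (Phi l z.1 = w ∧ Phi l z.2 = w) then 1 else 0 := by
    intro w
    unfold fib
    rw [sq, ← card_product, ← card_filter]
    congr 1
    ext z
    simp only [mem_product, mem_filter]
    tauto
  simp only [h1]
  rw [sum_comm, card_filter]
  refine sum_congr rfl fun z _ => ?_
  by_cases h : Phi l z.1 = Phi l z.2
  · rw [if_pos h, sum_eq_single (Phi l z.1)]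
    · rw [if_pos ⟨rfl, h.symm⟩]
    · intro w _ hw
      rw [if_neg]
      rintro ⟨h2, -⟩
      exact hw h2.symm
    · intro h2
      exact absurd (mem_univ _) h2
  · rw [if_neg h]
    refine sum_eq_zero fun w _ => ?_
    rw [if_neg]
    rintro ⟨h2, h3⟩
    exact h (h2.trans h3.symm)

/-- the expected second moment -/
theorem second {r : ℕ} (W : Finset (Fin r → F)) :
    (∑ l : Fin r → K, ∑ w : K, (fib W l w : ℝ) ^ 2) * Fintype.card K ≤
      Fintype.card (Fin r → K) * (W.card * Fintype.card K + (W.card : ℝ) ^ 2) := by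
  have h1 : ∑ l : Fin r → K, ∑ w : K, (fib W l w) ^ 2 =
      ∑ z ∈ W ×ˢ W, ((univ : Finset (Fin r → K)).filter (fun l => Phi l z.1 = Phi l z.2)).card := by
    simp only [sum_fib_sq, card_filter]
    exact sum_comm
  have h2 : (∑ l : Fin r → K, ∑ w : K, (fib W l w) ^ 2) * Fintype.card K ≤
      Fintype.card (Fin r → K) * (W.card * Fintype.card K + W.card ^ 2) := by
    rw [h1, sum_mul]
    have h3 : ∀ z ∈ W ×ˢ W, ((univ : Finset (Fin r → K)).filter
        (fun l => Phi l z.1 = Phi l z.2)).card * Fintype.card K ≤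
        Fintype.card (Fin r → K) * ((if z.1 = z.2 then Fintype.card K else 0) + 1) := by
      intro z _
      by_cases h : z.1 = z.2
      · rw [if_pos h, h, filter_true_of_mem (fun _ _ => rfl), card_univ]
        exact Nat.mul_le_mul_left _ (Nat.le_succ _)
      · rw [if_neg h, zero_add, mul_one]
        exact collision _ _ h
    refine (sum_le_sum h3).trans ?_
    rw [← mul_sum, sum_add_distrib]
    refine Nat.mul_le_mul_left _ ?_
    have h4 : ∑ z ∈ W ×ˢ W, (if z.1 = z.2 then Fintype.card K else 0) = W.card * Fintype.card K := by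
      rw [sum_product, ← smul_eq_mul, ← sum_const]
      refine sum_congr rfl fun x hx => ?_
      rw [sum_ite_eq, if_pos hx]
    rw [h4, sum_const, card_product, smul_eq_mul, mul_one, sq]
  exact_mod_cast h2

/-- many values -/
theorem image_lower {r : ℕ} (Z : Finset (Fin r → F)) (l : Fin r → K) :
    3 * (Z.card : ℝ) ≤ 2 * ((Z.image (Phi l)).card : ℝ) + ∑ w : K, (fib Z l w : ℝ) ^ 2 := by
  have h1 : (Z.card : ℝ) = ∑ w : K, (fib Z l w : ℝ) := by
    have := card_eq_sum_card_fiberwise (s := Z) (t := (univ : Finset K)) (f := Phi l)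
      (fun _ _ => mem_coe.2 (mem_univ _))
    rw [this]
    push_cast
    rfl
  have h2 : ((Z.image (Phi l)).card : ℝ) = ∑ w : K, if w ∈ Z.image (Phi l) then (1 : ℝ) else 0 := by
    rw [← sum_filter, sum_const, nsmul_eq_mul, mul_one]
    congr 2
    ext w
    simp
  rw [h1, h2, mul_sum, mul_sum, ← sum_add_distrib]
  refine sum_le_sum fun w _ => ?_
  by_cases h : w ∈ Z.image (Phi l)
  · rw [if_pos h]
    rcases Nat.lt_or_ge (fib Z l w) 2 with h3 | h3
    · have h4 : fib Z l w = 0 ∨ fib Z l w = 1 := by omega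
      rcases h4 with h4 | h4 <;> rw [h4] <;> norm_num
    · have h4 : (2 : ℝ) ≤ fib Z l w := by exact_mod_cast h3
      nlinarith
  · rw [if_neg h]
    have : fib Z l w = 0 := by
      unfold fib
      rw [card_eq_zero, filter_eq_empty_iff]
      intro x hx hxw
      exact h (mem_image.2 ⟨x, hx, hxw⟩)
    rw [this]
    norm_num

theorem image_lower_sum {r : ℕ} (Z : Finset (Fin r → F)) (hZ : Fintype.card K ≤ Z.card) :
    (Fintype.card (Fin r → K) : ℝ) * Fintype.card K / 2 ≤
      ∑ l : Fin r → K, ((Z.image (Phi l)).card : ℝ) := by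
  obtain ⟨Z', hZ', hc⟩ := exists_subset_card_eq hZ
  have hK : (0 : ℝ) < Fintype.card K := by exact_mod_cast Fintype.card_pos
  have h1 := second (K := K) Z'
  rw [hc] at h1
  have h2 : (∑ l : Fin r → K, ∑ w : K, (fib Z' l w : ℝ) ^ 2) ≤
      Fintype.card (Fin r → K) * (2 * Fintype.card K) := by
    refine le_of_mul_le_mul_right (h1.trans (le_of_eq ?_)) hK
    ring
  have h3 : ∑ l : Fin r → K, (3 * (Z'.card : ℝ)) ≤
      ∑ l : Fin r → K, (2 * ((Z'.image (Phi l)).card : ℝ) + ∑ w : K, (fib Z' l w : ℝ) ^ 2) :=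
    sum_le_sum fun l _ => image_lower Z' l
  rw [sum_const, card_univ, nsmul_eq_mul, sum_add_distrib, ← mul_sum, hc] at h3
  have h4 : ∑ l : Fin r → K, ((Z'.image (Phi l)).card : ℝ) ≤
      ∑ l : Fin r → K, ((Z.image (Phi l)).card : ℝ) :=
    sum_le_sum fun l _ => by exact_mod_cast card_le_card (image_subset_image hZ')
  linarith

theorem sum_form (a b : F) (hab : a ≠ 0 ∨ b ≠ 0) (h : K → ℝ) :
    ∑ z : K × K, h (a • z.1 + b • z.2) = Fintype.card K * ∑ w, h w := by
  rcases hab with ha | hb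
  · rw [Fintype.sum_prod_type_right]
    have : ∀ y : K, ∑ x : K, h (a • x + b • y) = ∑ w, h w := by
      intro y
      have hbij : Function.Bijective (fun x : K => a • x + b • y) := by
        rw [Fintype.bijective_iff_injective_and_card]
        refine ⟨fun x x' hx => ?_, rfl⟩
        exact smul_right_injective K ha (add_right_cancel hx)
      exact hbij.sum_comp h
    rw [sum_congr rfl fun y _ => this y, sum_const, card_univ, nsmul_eq_mul]
  · rw [Fintype.sum_prod_type]
    have : ∀ x : K, ∑ y : K, h (a • x + b • y) = ∑ w, h w := by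
      intro x
      have hbij : Function.Bijective (fun y : K => a • x + b • y) := by
        rw [Fintype.bijective_iff_injective_and_card]
        refine ⟨fun y y' hy => ?_, rfl⟩
        exact smul_right_injective K hb (add_left_cancel hy)
      exact hbij.sum_comp h
    rw [sum_congr rfl fun x _ => this x, sum_const, card_univ, nsmul_eq_mul]

theorem pow_le_mix {t τ c : ℝ} (ht : 0 ≤ t) (hτ : 0 < τ) (hc0 : 0 < c) (hc : c ≤ 2) :
    t ^ c ≤ τ ^ (c - 2) * t ^ 2 + τ ^ c := by
  rcases le_or_gt t τ with h | h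
  · have h1 := Real.rpow_le_rpow ht h hc0.le
    have h2 : 0 ≤ τ ^ (c - 2) * t ^ 2 := by positivity
    linarith
  · have ht0 : 0 < t := hτ.trans h
    have h1 : t ^ c = t ^ (c - 2) * t ^ 2 := by
      rw [← Real.rpow_natCast t 2, ← Real.rpow_add ht0]
      norm_num
    have h2 : t ^ (c - 2) ≤ τ ^ (c - 2) :=
      Real.rpow_le_rpow_of_nonpos hτ h.le (by linarith)
    have h3 : 0 < τ ^ c := by positivity
    rw [h1]
    have := mul_le_mul_of_nonneg_right h2 (sq_nonneg t)
    linarith

/-- The main counting lemma. -/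
theorem core_count {ι Δ I : Type} [DecidableEq ι] [DecidableEq Δ] [DecidableEq I] {r : ℕ}
    (E : Finset ι) (X Y : ι → Fin r → F) (δ : ι → Δ) (J : Finset I) (u v : I → F)
    (huv : ∀ i ∈ J, u i ≠ 0 ∨ v i ≠ 0) {i₀ : I} {c : ℝ} (hc0 : 0 < c) (hc : c ≤ 2)
    {n : ℝ} (hn : (Fintype.card K : ℝ) ≤ n)
    (hL : ∀ i ∈ J, ((E.image (fun w => u i • X w + v i • Y w)).card : ℝ) ≤ n)
    (hSD : ∀ E' ⊆ E, E'.Nonempty → ∃ i ∈ J, ((E'.image δ).card : ℝ) ≤
      ((E'.image (fun w => u i • X w + v i • Y w)).card : ℝ) ^ c)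
    (D : Finset Δ)
    (hD : ∀ d ∈ D, Fintype.card K ≤
      ((E.filter (fun w => δ w = d)).image (fun w => u i₀ • X w + v i₀ • Y w)).card) :
    (D.card : ℝ) * (Fintype.card K : ℝ) ^ (c - 1) ≤ 6 * J.card * n ^ c := by
  classical
  obtain ⟨L, hLd⟩ : ∃ L : I → ι → Fin r → F, ∀ i w, L i w = u i • X w + v i • Y w :=
    ⟨fun i w => u i • X w + v i • Y w, fun _ _ => rfl⟩
  simp only [← hLd] at hL hSD hD
  obtain ⟨m, hm⟩ : ∃ m : ℝ, m = Fintype.card K := ⟨_, rfl⟩
  have hm0 : 0 < m := by rw [hm]; exact_mod_cast Fintype.card_pos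
  rw [← hm] at hn ⊢
  obtain ⟨M, hM⟩ : ∃ M : ℝ, M = Fintype.card (Fin r → K) := ⟨_, rfl⟩
  have hM0 : 0 < M := by rw [hM]; exact_mod_cast Fintype.card_pos
  have hn0 : 0 < n := lt_of_lt_of_le hm0 hn
  obtain ⟨cell, hcell⟩ : ∃ cell : (Fin r → K) → K × K → Finset ι, ∀ l z,
      cell l z = E.filter (fun w => Phi l (X w) = z.1 ∧ Phi l (Y w) = z.2) := ⟨_, fun _ _ => rfl⟩
  -- lower bound
  have hlow : ∀ l : Fin r → K,
      ∑ d ∈ D, ((((E.filter (fun w => δ w = d)).image (L i₀)).image (Phi l)).card : ℝ) ≤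
        ∑ z : K × K, (((cell l z).image δ).card : ℝ) := by
    intro l
    rcases E.eq_empty_or_nonempty with hE | ⟨w₀, -⟩
    · rw [hE]
      simp only [filter_empty, image_empty, card_empty, Nat.cast_zero, sum_const_zero]
      exact sum_nonneg fun _ _ => Nat.cast_nonneg _
    have : Nonempty ι := ⟨w₀⟩
    have h1 : ∑ d ∈ D, (((E.filter (fun w => δ w = d)).image (L i₀)).image (Phi l)).card ≤
        ∑ z : K × K, ((cell l z).image δ).card := by
      rw [← card_sigma, ← card_sigma]
      have hex : ∀ y : (Σ _ : Δ, K), y ∈ D.sigma (fun d =>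
          ((E.filter (fun w => δ w = d)).image (L i₀)).image (Phi l)) →
          ∃ w ∈ E, δ w = y.1 ∧ Phi l (L i₀ w) = y.2 := by
        intro y hy
        rw [mem_sigma] at hy
        obtain ⟨x, hx, hx2⟩ := mem_image.1 hy.2
        obtain ⟨w, hw, rfl⟩ := mem_image.1 hx
        rw [mem_filter] at hw
        exact ⟨w, hw.1, hw.2, hx2⟩
      choose! f hf1 hf2 hf3 using hex
      refine card_le_card_of_injOn
        (fun y => (⟨(Phi l (X (f y)), Phi l (Y (f y))), δ (f y)⟩ : Σ _ : K × K, Δ)) ?_ ?_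
      · intro y hy
        rw [mem_coe, mem_sigma]
        refine ⟨mem_univ _, mem_image_of_mem _ ?_⟩
        rw [hcell, mem_filter]
        exact ⟨hf1 y hy, rfl, rfl⟩
      · intro y hy y' hy' heq
        simp only [Sigma.mk.injEq, Prod.mk.injEq, heq_eq_eq] at heq
        obtain ⟨⟨h1, h2⟩, h3⟩ := heq
        have h4 : y.1 = y'.1 := by rw [← hf2 y hy, ← hf2 y' hy', h3]
        have h5 : y.2 = y'.2 := by
          rw [← hf3 y hy, ← hf3 y' hy', hLd, hLd, phi_lin, phi_lin, h1, h2]
        exact Sigma.ext h4 (heq_of_eq h5)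
    exact_mod_cast h1
  have hlow2 : (D.card : ℝ) * (M * m / 2) ≤
      ∑ l : Fin r → K, ∑ z : K × K, (((cell l z).image δ).card : ℝ) := by
    refine le_trans ?_ (sum_le_sum fun l _ => hlow l)
    rw [sum_comm, ← nsmul_eq_mul, ← sum_const]
    refine sum_le_sum fun d hd => ?_
    rw [hM, hm]
    exact image_lower_sum _ (hD d hd)
  -- upper bound
  obtain ⟨τ, hτ⟩ : ∃ τ, τ = n / m := ⟨_, rfl⟩
  have hτ0 : 0 < τ := by rw [hτ]; positivity
  have hup : ∀ (l : Fin r → K) (z : K × K), (((cell l z).image δ).card : ℝ) ≤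
      ∑ i ∈ J, (fib (E.image (L i)) l (u i • z.1 + v i • z.2) : ℝ) ^ c := by
    intro l z
    rcases (cell l z).eq_empty_or_nonempty with h0 | h0
    · rw [h0, image_empty, card_empty, Nat.cast_zero]
      exact sum_nonneg fun _ _ => by positivity
    · have hsub : cell l z ⊆ E := by rw [hcell]; exact filter_subset _ _
      obtain ⟨i, hi, h1⟩ := hSD _ hsub h0
      refine h1.trans ?_
      have h2 : ((cell l z).image (L i)).card ≤ fib (E.image (L i)) l (u i • z.1 + v i • z.2) := by
        unfold fib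
        refine card_le_card fun x hx => ?_
        obtain ⟨w, hw, rfl⟩ := mem_image.1 hx
        rw [hcell, mem_filter] at hw
        rw [mem_filter]
        refine ⟨mem_image_of_mem _ hw.1, ?_⟩
        rw [hLd, phi_lin, hw.2.1, hw.2.2]
      have h3 : (((cell l z).image (L i)).card : ℝ) ^ c ≤
          (fib (E.image (L i)) l (u i • z.1 + v i • z.2) : ℝ) ^ c :=
        Real.rpow_le_rpow (Nat.cast_nonneg _) (by exact_mod_cast h2) hc0.le
      refine h3.trans ?_
      exact single_le_sum (f := fun i => (fib (E.image (L i)) l (u i • z.1 + v i • z.2) : ℝ) ^ c)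
        (fun _ _ => by positivity) hi
  have hup2 : ∀ i ∈ J, ∑ l : Fin r → K, ∑ z : K × K,
      (fib (E.image (L i)) l (u i • z.1 + v i • z.2) : ℝ) ^ c ≤ 3 * M * m ^ 2 * τ ^ c := by
    intro i hi
    have h1 : ∀ l : Fin r → K, ∑ z : K × K,
        (fib (E.image (L i)) l (u i • z.1 + v i • z.2) : ℝ) ^ c ≤
        m * (τ ^ (c - 2) * ∑ w : K, (fib (E.image (L i)) l w : ℝ) ^ 2 + m * τ ^ c) := by
      intro l
      rw [sum_form (u i) (v i) (huv i hi) (fun w => (fib (E.image (L i)) l w : ℝ) ^ c), ← hm]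
      refine mul_le_mul_of_nonneg_left ?_ hm0.le
      have h2 : ∑ w : K, (fib (E.image (L i)) l w : ℝ) ^ c ≤
          ∑ w : K, (τ ^ (c - 2) * (fib (E.image (L i)) l w : ℝ) ^ 2 + τ ^ c) :=
        sum_le_sum fun w _ => pow_le_mix (Nat.cast_nonneg _) hτ0 hc0 hc
      refine h2.trans (le_of_eq ?_)
      rw [sum_add_distrib, ← mul_sum, sum_const, card_univ, nsmul_eq_mul, ← hm]
    have h2 := second (K := K) (E.image (L i))
    rw [← hm, ← hM] at h2
    have h3 := hL i hi
    obtain ⟨W, hW⟩ : ∃ W : ℝ, W = ((E.image (L i)).card : ℝ) := ⟨_, rfl⟩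
    rw [← hW] at h2 h3
    have hW0 : 0 ≤ W := by rw [hW]; positivity
    have h4 : (∑ l : Fin r → K, ∑ w : K, (fib (E.image (L i)) l w : ℝ) ^ 2) ≤ 2 * M * m * τ ^ 2 := by
      refine le_of_mul_le_mul_right (h2.trans ?_) hm0
      have h5 : 2 * M * m * τ ^ 2 * m = M * (2 * n ^ 2) := by
        rw [hτ]
        field_simp
      rw [h5]
      refine mul_le_mul_of_nonneg_left ?_ hM0.le
      have h6 : W * m ≤ n ^ 2 := by rw [sq]; exact mul_le_mul h3 hn hm0.le hn0.le
      have h7 : W ^ 2 ≤ n ^ 2 := pow_le_pow_left₀ hW0 h3 2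
      linarith
    calc ∑ l : Fin r → K, ∑ z : K × K, (fib (E.image (L i)) l (u i • z.1 + v i • z.2) : ℝ) ^ c
        ≤ ∑ l : Fin r → K, m * (τ ^ (c - 2) * ∑ w : K, (fib (E.image (L i)) l w : ℝ) ^ 2 + m * τ ^ c) :=
          sum_le_sum fun l _ => h1 l
      _ = m * (τ ^ (c - 2) * (∑ l : Fin r → K, ∑ w : K, (fib (E.image (L i)) l w : ℝ) ^ 2) +
            M * (m * τ ^ c)) := by
          rw [← mul_sum, sum_add_distrib, ← mul_sum, sum_const, card_univ, nsmul_eq_mul, ← hM]
      _ ≤ m * (τ ^ (c - 2) * (2 * M * m * τ ^ 2) + M * (m * τ ^ c)) := by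
          refine mul_le_mul_of_nonneg_left ?_ hm0.le
          have := mul_le_mul_of_nonneg_left h4 (show 0 ≤ τ ^ (c - 2) by positivity)
          linarith
      _ = 3 * M * m ^ 2 * τ ^ c := by
          have : τ ^ c = τ ^ (c - 2) * τ ^ 2 := by
            rw [← Real.rpow_natCast τ 2, ← Real.rpow_add hτ0]
            norm_num
          rw [this]
          ring
  have hup3 : ∑ l : Fin r → K, ∑ z : K × K, (((cell l z).image δ).card : ℝ) ≤
      J.card * (3 * M * m ^ 2 * τ ^ c) := by
    calc ∑ l : Fin r → K, ∑ z : K × K, (((cell l z).image δ).card : ℝ)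
        ≤ ∑ l : Fin r → K, ∑ z : K × K, ∑ i ∈ J,
            (fib (E.image (L i)) l (u i • z.1 + v i • z.2) : ℝ) ^ c :=
          sum_le_sum fun l _ => sum_le_sum fun z _ => hup l z
      _ = ∑ i ∈ J, ∑ l : Fin r → K, ∑ z : K × K,
            (fib (E.image (L i)) l (u i • z.1 + v i • z.2) : ℝ) ^ c := by
          rw [sum_comm]
          have : ∀ l : Fin r → K, ∑ z : K × K, ∑ i ∈ J,
              (fib (E.image (L i)) l (u i • z.1 + v i • z.2) : ℝ) ^ c = ∑ i ∈ J, ∑ z : K × K,
              (fib (E.image (L i)) l (u i • z.1 + v i • z.2) : ℝ) ^ c := fun l => sum_comm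
          rw [sum_comm, sum_congr rfl fun l _ => this l, sum_comm]
      _ ≤ ∑ i ∈ J, 3 * M * m ^ 2 * τ ^ c := sum_le_sum hup2
      _ = _ := by rw [sum_const, nsmul_eq_mul]
  have hfin := hlow2.trans hup3
  -- divide by `M m / 2`
  have h1 : (D.card : ℝ) ≤ 6 * J.card * (m * τ ^ c) := by
    refine le_of_mul_le_mul_right (hfin.trans (le_of_eq ?_)) (show 0 < M * m / 2 by positivity)
    ring
  have h2 : m * τ ^ c * m ^ (c - 1) = n ^ c := by
    rw [hτ, Real.div_rpow hn0.le hm0.le]
    have h3 : m ^ c = m * m ^ (c - 1) := by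
      nth_rewrite 2 [← Real.rpow_one m]
      rw [← Real.rpow_add hm0]
      ring_nf
    rw [h3]
    have h4 : 0 < m ^ (c - 1) := by positivity
    field_simp
  calc (D.card : ℝ) * m ^ (c - 1) ≤ 6 * J.card * (m * τ ^ c) * m ^ (c - 1) :=
        mul_le_mul_of_nonneg_right h1 (by positivity)
    _ = 6 * J.card * (m * τ ^ c * m ^ (c - 1)) := by ring
    _ = _ := by rw [h2]

end Pool.Agent.X163.Ak.Mult
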