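import Pool.Agent.Results.MP_169869_co.FibreMultiplicity
import Pool.Agent.X163.Ak.Mink

/-! The sums-differences inequality with multiplicities for integer vectors and at one scale in `ℝ^n`. -/

set_option autoImplicit false

open Finset

namespace Pool.Agent.X163.Ak.MultN

open Pool.Agent.Results.MP_169869_co.GeometricMeans (diffs slice)
open Pool.Agent.Results.MP_169869_co.FibreMultiplicity (starts)
open Pool.Agent.X163.Ak (sep_form fl fl_prog)

/-- The sums-differences inequality for `k` slices. -/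
def SD (k : ℕ) (c : ℝ) : Prop :=
  ∀ A : Finset (ℤ × ℤ), A.Nonempty →
    ∃ j < k, ((diffs A).card : ℝ) ≤ ((slice (j : ℕ) A).card : ℝ) ^ c

/-- the known sums-differences exponents -/
theorem exists_SD {c : ℝ} (hc : 3 / 2 ≤ c) (hq : 0 < 7 * c ^ 4 - 6 * c ^ 3 - 21 * c ^ 2 + 24 * c - 8) :
    ∃ k, SD k c := by
  obtain ⟨S, hS, h1⟩ := Pool.Agent.X163.Ak.sdc_root hc hq
  exact Pool.Agent.Results.MP_169869_co.AlmostAllSlices.Aux2.slices_of_almostAll
    (Pool.Agent.Results.MP_169869_co.AlmostAllSlices.Aux2.almostAll_of_max (S := insertNone S)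
      (by simpa using hS) (Pool.Agent.Results.MP_169869_co.GeometricMeans.Aux.max_of_sd h1))

/-- multiplicities for integer vectors -/
theorem slices_n {k : ℕ} {c : ℝ} (hc1 : 1 ≤ c) (hc2 : c ≤ 2) (hSD : SD k c) {n : ℕ}
    (G : Finset ((Fin n → ℤ) × (Fin n → ℤ))) (hG : G.Nonempty) :
    ∃ j < k, ∑ d ∈ G.image Prod.snd, ((G.filter (fun g => g.2 = d)).card : ℝ) ^ (c - 1) ≤
      ((G.image (fun g => g.1 + (j : ℤ) • g.2)).card : ℝ) ^ c := by
  classical
  obtain ⟨v, hv⟩ := sep_form (G.image Prod.snd ∪ G.image Prod.fst)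
  obtain ⟨φ, hφ⟩ : ∃ φ : (Fin n → ℤ) → ℤ, ∀ x, φ x = ∑ i, x i * v i := ⟨_, fun _ => rfl⟩
  have hinj : Set.InjOn φ (G.image Prod.snd ∪ G.image Prod.fst : Finset (Fin n → ℤ)) := by
    intro x hx y hy hxy
    rw [hφ, hφ] at hxy
    exact hv hx hy hxy
  have hadd : ∀ (x y : Fin n → ℤ) (m : ℤ), φ (x + m • y) = φ x + m * φ y := by
    intro x y m
    rw [hφ, hφ, hφ, Finset.mul_sum, ← Finset.sum_add_distrib]
    refine Finset.sum_congr rfl fun i _ => ?_
    simp only [Pi.add_apply, Pi.smul_apply, smul_eq_mul]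
    ring
  obtain ⟨A, hA⟩ : ∃ A : Finset (ℤ × ℤ), A = G.image fun g => (φ g.1, φ g.2) := ⟨_, rfl⟩
  have hAne : A.Nonempty := by rw [hA]; exact hG.image _
  obtain ⟨j, hj, h1⟩ := Pool.Agent.Results.MP_169869_co.FibreMultiplicity.Aux4.slices hc1 hc2 hSD A hAne
  have m2 : ∀ g ∈ G, g.2 ∈ ((G.image Prod.snd ∪ G.image Prod.fst : Finset (Fin n → ℤ)) : Set _) := by
    intro g hg
    exact mem_coe.2 (mem_union_left _ (mem_image_of_mem _ hg))
  have m1 : ∀ g ∈ G, g.1 ∈ ((G.image Prod.snd ∪ G.image Prod.fst : Finset (Fin n → ℤ)) : Set _) := by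
    intro g hg
    exact mem_coe.2 (mem_union_right _ (mem_image_of_mem _ hg))
  refine ⟨j, hj, ?_⟩
  have h2 : ∑ d ∈ G.image Prod.snd, ((G.filter (fun g => g.2 = d)).card : ℝ) ^ (c - 1) ≤
      ∑ d ∈ diffs A, (starts A d : ℝ) ^ (c - 1) := by
    have h3 : diffs A = (G.image Prod.snd).image φ := by
      unfold Pool.Agent.Results.MP_169869_co.GeometricMeans.diffs
      rw [hA, image_image, image_image]
      rfl
    have e6 : ∑ d ∈ (G.image Prod.snd).image φ, (starts A d : ℝ) ^ (c - 1) =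
        ∑ d ∈ G.image Prod.snd, (starts A (φ d) : ℝ) ^ (c - 1) := sum_image fun x hx y hy hxy =>
      hinj (mem_coe.2 (mem_union_left _ hx)) (mem_coe.2 (mem_union_left _ hy)) hxy
    rw [h3, e6]
    · refine sum_le_sum fun d hd => Real.rpow_le_rpow (Nat.cast_nonneg _) ?_ (by linarith)
      unfold Pool.Agent.Results.MP_169869_co.FibreMultiplicity.starts
      rw [Nat.cast_le]
      refine card_le_card_of_injOn (fun g => (φ g.1, φ g.2)) ?_ ?_
      · intro g hg
        rw [mem_coe, mem_filter] at hg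
        rw [mem_coe, mem_filter]
        refine ⟨?_, ?_⟩
        · rw [hA]
          exact mem_image_of_mem _ hg.1
        · simp only [hg.2]
      · intro g hg g' hg' heq
        rw [mem_coe, mem_filter] at hg hg'
        simp only [Prod.mk.injEq] at heq
        exact Prod.ext (hinj (m1 g hg.1) (m1 g' hg'.1) heq.1) (hg.2.trans hg'.2.symm)
  have h4 : (slice (j : ℕ) A).card ≤ (G.image (fun g => g.1 + (j : ℤ) • g.2)).card := by
    have h5 : slice (j : ℕ) A = (G.image (fun g => g.1 + (j : ℤ) • g.2)).image φ := by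
      unfold Pool.Agent.Results.MP_169869_co.GeometricMeans.slice
      rw [hA, image_image, image_image]
      refine image_congr fun g _ => ?_
      simp only [Function.comp]
      rw [hadd]
    rw [h5]
    exact card_image_le
  refine h2.trans (h1.trans (Real.rpow_le_rpow (Nat.cast_nonneg _) (by exact_mod_cast h4) (by linarith)))

/-- Distinct points have distance at least `s`. -/
def Separated {n : ℕ} (s : ℝ) (S : Set (EuclideanSpace ℝ (Fin n))) : Prop :=
  ∀ x ∈ S, ∀ y ∈ S, x ≠ y → s ≤ dist x y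

theorem fl_inj {n : ℕ} {δ : ℝ} (hδ : 0 < δ) {S : Set (EuclideanSpace ℝ (Fin n))}
    (hS : Separated ((n + 1) * δ) S) : Set.InjOn (fl δ) S := by
  intro x hx y hy hxy
  by_contra hne
  have h1 := hS x hx y hy hne
  have h2 : dist x y < (n + 1) * δ := by
    rw [EuclideanSpace.dist_eq]
    have hi : ∀ i, dist (x i) (y i) ^ 2 ≤ δ ^ 2 := by
      intro i
      have e : ⌊x i / δ⌋ = ⌊y i / δ⌋ := congrFun hxy i
      have h3 := Int.abs_sub_lt_one_of_floor_eq_floor e
      rw [Real.dist_eq, ← sq_abs δ, abs_of_pos hδ]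
      refine pow_le_pow_left₀ (abs_nonneg _) ?_ 2
      have h4 : x i - y i = (x i / δ - y i / δ) * δ := by field_simp
      rw [h4, abs_mul, abs_of_pos hδ]
      nlinarith
    refine lt_of_le_of_lt (Real.sqrt_le_sqrt (Finset.sum_le_sum fun i _ => hi i)) ?_
    rw [Finset.sum_const, Finset.card_univ, Fintype.card_fin, nsmul_eq_mul,
      Real.sqrt_lt' (by positivity)]
    have hn : (0:ℝ) ≤ n := Nat.cast_nonneg n
    nlinarith [sq_pos_of_pos hδ, mul_nonneg hn (sq_nonneg δ)]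
  linarith

/-- multiplicities at one scale -/
theorem mult_scale {k : ℕ} {c : ℝ} (hc1 : 1 ≤ c) (hc2 : c ≤ 2) (hSD : SD k c) {n : ℕ}
    (B : Set (EuclideanSpace ℝ (Fin n))) {δ : ℝ} (hδ : 0 < δ)
    (P : Finset (EuclideanSpace ℝ (Fin n))) (hcov : B ⊆ ⋃ x ∈ P, Metric.ball x δ)
    (R : Finset (EuclideanSpace ℝ (Fin n))) (hR : Separated ((n + 1) * δ) (↑R : Set (EuclideanSpace ℝ (Fin n))))
    (F : EuclideanSpace ℝ (Fin n) → Finset (EuclideanSpace ℝ (Fin n)))
    (hF : ∀ r ∈ R, Separated ((n + 1) * δ) (↑(F r) : Set (EuclideanSpace ℝ (Fin n))) ∧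
      ∀ a ∈ F r, ∀ j : ℕ, j < k → a + (j : ℝ) • r ∈ B) :
    ∑ r ∈ R.filter (fun r => (F r).Nonempty), ((F r).card : ℝ) ^ (c - 1) ≤
      (((k + 2) ^ n * P.card : ℕ) : ℝ) ^ c := by
  classical
  obtain ⟨G, hG⟩ : ∃ G : Finset ((Fin n → ℤ) × (Fin n → ℤ)),
      G = R.biUnion fun r => (F r).image fun a => (fl δ a, fl δ r) := ⟨_, rfl⟩
  rcases (R.filter (fun r => (F r).Nonempty)).eq_empty_or_nonempty with h0 | ⟨r0, hr0⟩
  · rw [h0, sum_empty]
    positivity
  have hGne : G.Nonempty := by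
    rw [mem_filter] at hr0
    obtain ⟨hr0, a0, ha0⟩ := hr0
    exact ⟨(fl δ a0, fl δ r0), by rw [hG]; exact mem_biUnion.2 ⟨r0, hr0, mem_image_of_mem _ ha0⟩⟩
  obtain ⟨j, hj, h1⟩ := slices_n hc1 hc2 hSD G hGne
  have hRinj := fl_inj hδ hR
  -- the slices
  have hsub : (G.image fun g => g.1 + (j : ℤ) • g.2) ⊆ P.biUnion fun x =>
      Fintype.piFinset fun i => Finset.Icc (⌊x i / δ⌋ - 1 - j) (⌊x i / δ⌋ + 1) := by
    intro z hz
    obtain ⟨g, hg, rfl⟩ := Finset.mem_image.1 hz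
    rw [hG, mem_biUnion] at hg
    obtain ⟨r, hr, hg⟩ := hg
    obtain ⟨a, ha, rfl⟩ := Finset.mem_image.1 hg
    have e3 := hcov ((hF r hr).2 a ha j hj)
    simp only [Set.mem_iUnion, Metric.mem_ball, exists_prop] at e3
    obtain ⟨x, hx, hxd⟩ := e3
    refine Finset.mem_biUnion.2 ⟨x, hx, ?_⟩
    rw [Fintype.mem_piFinset]
    intro i
    have e4 : |a i + j * r i - x i| < δ := by
      refine lt_of_le_of_lt ?_ hxd
      rw [dist_eq_norm]
      have := PiLp.norm_apply_le (a + (j : ℝ) • r - x) i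
      rw [Real.norm_eq_abs] at this
      exact this
    exact fl_prog hδ e4
  have h2 : (G.image fun g => g.1 + (j : ℤ) • g.2).card ≤ (k + 2) ^ n * P.card := by
    refine (Finset.card_le_card hsub).trans (Finset.card_biUnion_le.trans ?_)
    refine (Finset.sum_le_card_nsmul _ _ ((k + 2) ^ n) fun x _ => ?_).trans (le_of_eq ?_)
    · rw [Fintype.card_piFinset]
      refine (Finset.prod_le_pow_card _ _ (k + 2) fun i _ => ?_).trans (le_of_eq ?_)
      · rw [Int.card_Icc]; omega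
      · rw [Finset.card_univ, Fintype.card_fin]
    · rw [smul_eq_mul, Nat.mul_comm]
  refine le_trans ?_ (h1.trans (Real.rpow_le_rpow (Nat.cast_nonneg _) (by exact_mod_cast h2)
    (by linarith)))
  -- the fibres
  have h3 : G.image Prod.snd = (R.filter (fun r => (F r).Nonempty)).image (fl δ) := by
    ext d
    rw [hG, mem_image, mem_image]
    constructor
    · rintro ⟨g, hg, rfl⟩
      rw [mem_biUnion] at hg
      obtain ⟨r, hr, hg⟩ := hg
      obtain ⟨a, ha, rfl⟩ := Finset.mem_image.1 hg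
      exact ⟨r, mem_filter.2 ⟨hr, a, ha⟩, rfl⟩
    · rintro ⟨r, hr, rfl⟩
      rw [mem_filter] at hr
      obtain ⟨hr, a, ha⟩ := hr
      exact ⟨(fl δ a, fl δ r), mem_biUnion.2 ⟨r, hr, mem_image_of_mem _ ha⟩, rfl⟩
  have e6 : ∑ d ∈ (R.filter (fun r => (F r).Nonempty)).image (fl δ),
      ((G.filter (fun g => g.2 = d)).card : ℝ) ^ (c - 1) =
      ∑ r ∈ R.filter (fun r => (F r).Nonempty),
        ((G.filter (fun g => g.2 = fl δ r)).card : ℝ) ^ (c - 1) := sum_image fun x hx y hy hxy =>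
    hRinj (mem_coe.2 (mem_filter.1 hx).1) (mem_coe.2 (mem_filter.1 hy).1) hxy
  rw [h3, e6]
  · refine sum_le_sum fun r hr => Real.rpow_le_rpow (Nat.cast_nonneg _) ?_ (by linarith)
    rw [mem_filter] at hr
    rw [Nat.cast_le]
    refine card_le_card_of_injOn (fun a => (fl δ a, fl δ r)) ?_ ?_
    · intro a ha
      rw [mem_coe, mem_filter, hG]
      exact ⟨mem_biUnion.2 ⟨r, hr.1, mem_image_of_mem _ ha⟩, rfl⟩
    · intro a ha a' ha' heq
      simp only [Prod.mk.injEq, and_true] at heq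
      exact fl_inj hδ (hF r hr.1).1 ha ha' heq

end Pool.Agent.X163.Ak.MultN
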