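import Pool.Agent.X163.Ak.MultN
import Pool.Agent.X163.PC.Rare

/-! Few selections of first terms give few points. -/

set_option autoImplicit false

open Finset Filter Topology

namespace Pool.Agent.X163.Ak.RareSel

open Pool.Agent.X163.Ak.MultN (SD slices_n)

/-- the inequality of the means -/
theorem prod_le_of_sum {β : Type} (Q : Finset β) (hne : Q.Nonempty) (g : β → ℕ) {c S : ℝ}
    (hc : 1 < c) (h : ∑ q ∈ Q, (g q : ℝ) ^ (c - 1) ≤ S) :
    ∏ q ∈ Q, (g q : ℝ) ≤ ((S / Q.card) ^ (1 / (c - 1))) ^ Q.card := by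
  have hk : 0 < (Q.card : ℝ) := by exact_mod_cast hne.card_pos
  have hc0 : 0 < c - 1 := by linarith
  have h3 : (∏ q ∈ Q, (g q : ℝ) ^ (c - 1)) ^ (1 / (Q.card : ℝ)) ≤
      (∑ q ∈ Q, (g q : ℝ) ^ (c - 1)) / Q.card := by
    have h4 := Real.geom_mean_le_arith_mean_weighted Q (fun _ => 1 / (Q.card : ℝ))
      (fun q => (g q : ℝ) ^ (c - 1)) (fun _ _ => by positivity)
      (by rw [sum_const, nsmul_eq_mul]; field_simp) (fun _ _ => by positivity)
    rw [Real.finsetProd_rpow _ _ (fun _ _ => by positivity)] at h4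
    refine h4.trans (le_of_eq ?_)
    rw [← mul_sum]
    ring
  have h6 : (∏ q ∈ Q, (g q : ℝ) ^ (c - 1)) ^ (1 / (Q.card : ℝ)) ≤ S / Q.card :=
    h3.trans (div_le_div_of_nonneg_right h hk.le)
  have h7 : 0 ≤ ∏ q ∈ Q, (g q : ℝ) ^ (c - 1) := prod_nonneg fun _ _ => by positivity
  have hS : 0 ≤ S / Q.card := (Real.rpow_nonneg h7 _).trans h6
  have h8 := pow_le_pow_left₀ (Real.rpow_nonneg h7 _) h6 Q.card
  rw [← Real.rpow_natCast, ← Real.rpow_mul h7, one_div_mul_cancel hk.ne', Real.rpow_one,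
    Real.finsetProd_rpow _ _ (fun _ _ => Nat.cast_nonneg _)] at h8
  have h9 : 0 ≤ ∏ q ∈ Q, (g q : ℝ) := prod_nonneg fun _ _ => Nat.cast_nonneg _
  have h10 := Real.rpow_le_rpow (Real.rpow_nonneg h9 _) h8 (show 0 ≤ 1 / (c - 1) by positivity)
  rw [← Real.rpow_mul h9, mul_one_div_cancel hc0.ne', Real.rpow_one] at h10
  refine h10.trans (le_of_eq ?_)
  rw [← Real.rpow_natCast, ← Real.rpow_natCast, ← Real.rpow_mul hS, ← Real.rpow_mul hS, mul_comm]

/-- `{0, …, N - 1} ^ n` -/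
def grid (n N : ℕ) : Finset (Fin n → ℕ) := Fintype.piFinset (fun _ => range N)

theorem card_grid (n N : ℕ) : (grid n N).card = N ^ n := by
  unfold grid
  rw [Fintype.card_piFinset]
  simp

/-- The points of the progressions `a r, a r + r, …, a r + (k - 1) r` for `r ∈ R`. -/
def pts {n : ℕ} (k : ℕ) (R : Finset (Fin n → ℕ)) (a : ↥R → (Fin n → ℕ)) : Set (Fin n → ℕ) :=
  {x | ∃ r : ↥R, ∃ j < k, x = a r + j • r.1}

/-- the first terms `v` in the grid with the progression in `T` -/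
def good {n : ℕ} (k N : ℕ) (T : Finset (Fin n → ℕ)) (r : Fin n → ℕ) : Finset (Fin n → ℕ) :=
  (grid n N).filter (fun v => ∀ j < k, v + j • r ∈ T)

theorem sum_good {n k N : ℕ} {c : ℝ} (hc1 : 1 < c) (hc2 : c ≤ 2) (hSD : SD k c)
    (R T : Finset (Fin n → ℕ)) :
    ∑ r ∈ R, ((good k N T r).card : ℝ) ^ (c - 1) ≤ (T.card : ℝ) ^ c := by
  classical
  obtain ⟨z, hz⟩ : ∃ z : (Fin n → ℕ) → (Fin n → ℤ), z = fun x i => (x i : ℤ) := ⟨_, rfl⟩
  have hzi : Function.Injective z := by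
    intro x y hxy
    rw [hz] at hxy
    ext i
    have := congrFun hxy i
    simp only at this
    exact_mod_cast this
  obtain ⟨G, hG⟩ : ∃ G : Finset ((Fin n → ℤ) × (Fin n → ℤ)),
      G = R.biUnion fun r => (good k N T r).image fun v => (z v, z r) := ⟨_, rfl⟩
  have h0 : ∑ r ∈ R, ((good k N T r).card : ℝ) ^ (c - 1) =
      ∑ r ∈ R.filter (fun r => (good k N T r).Nonempty), ((good k N T r).card : ℝ) ^ (c - 1) := by
    rw [sum_filter]
    refine sum_congr rfl fun r _ => ?_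
    by_cases h : (good k N T r).Nonempty
    · rw [if_pos h]
    · rw [if_neg h, not_nonempty_iff_eq_empty.1 h, card_empty, Nat.cast_zero,
        Real.zero_rpow (by linarith)]
  rw [h0]
  rcases (R.filter (fun r => (good k N T r).Nonempty)).eq_empty_or_nonempty with h1 | ⟨r0, hr0⟩
  · rw [h1, sum_empty]
    positivity
  have hGne : G.Nonempty := by
    rw [mem_filter] at hr0
    obtain ⟨hr0, a0, ha0⟩ := hr0
    exact ⟨(z a0, z r0), by rw [hG]; exact mem_biUnion.2 ⟨r0, hr0, mem_image_of_mem _ ha0⟩⟩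
  obtain ⟨j, hj, h1⟩ := slices_n hc1.le hc2 hSD G hGne
  have hsub : (G.image fun g => g.1 + (j : ℤ) • g.2) ⊆ T.image z := by
    intro y hy
    obtain ⟨g, hg, rfl⟩ := Finset.mem_image.1 hy
    rw [hG, mem_biUnion] at hg
    obtain ⟨r, hr, hg⟩ := hg
    obtain ⟨v, hv, rfl⟩ := Finset.mem_image.1 hg
    refine mem_image.2 ⟨v + j • r, (mem_filter.1 hv).2 j hj, ?_⟩
    rw [hz]
    ext i
    simp
  have h2 : (G.image fun g => g.1 + (j : ℤ) • g.2).card ≤ T.card :=
    (card_le_card hsub).trans card_image_le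
  refine le_trans ?_ (h1.trans (Real.rpow_le_rpow (Nat.cast_nonneg _) (by exact_mod_cast h2)
    (by linarith)))
  have h3 : G.image Prod.snd = (R.filter (fun r => (good k N T r).Nonempty)).image z := by
    ext d
    rw [hG, mem_image, mem_image]
    constructor
    · rintro ⟨g, hg, rfl⟩
      rw [mem_biUnion] at hg
      obtain ⟨r, hr, hg⟩ := hg
      obtain ⟨a, ha, rfl⟩ := Finset.mem_image.1 hg
      exact ⟨r, mem_filter.2 ⟨hr, a, ha⟩, rfl⟩
    · rintro ⟨r, hr, rfl⟩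
      rw [mem_filter] at hr
      obtain ⟨hr, a, ha⟩ := hr
      exact ⟨(z a, z r), mem_biUnion.2 ⟨r, hr, mem_image_of_mem _ ha⟩, rfl⟩
  have e6 : ∑ d ∈ (R.filter (fun r => (good k N T r).Nonempty)).image z,
      ((G.filter (fun g => g.2 = d)).card : ℝ) ^ (c - 1) =
      ∑ r ∈ R.filter (fun r => (good k N T r).Nonempty),
        ((G.filter (fun g => g.2 = z r)).card : ℝ) ^ (c - 1) := sum_image fun x _ y _ hxy => hzi hxy
  rw [h3, e6]
  refine sum_le_sum fun r hr => Real.rpow_le_rpow (Nat.cast_nonneg _) ?_ (by linarith)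
  rw [mem_filter] at hr
  rw [Nat.cast_le]
  refine card_le_card_of_injOn (fun a => (z a, z r)) ?_ ?_
  · intro a ha
    rw [mem_coe, mem_filter, hG]
    exact ⟨mem_biUnion.2 ⟨r, hr.1, mem_image_of_mem _ ha⟩, rfl⟩
  · intro a ha a' ha' heq
    simp only [Prod.mk.injEq, and_true] at heq
    exact hzi heq

/-- the union bound -/
theorem union_bound {n k N : ℕ} {c : ℝ} (hc1 : 1 < c) (hc2 : c ≤ 2) (hSD : SD k c)
    (R : Finset (Fin n → ℕ)) (hR : R ⊆ grid n N) (hne : R.Nonempty) (x : ℝ) (t : ℕ)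
    (hx : x < t + 1) :
    {a : ↥R → (Fin n → ℕ) | (∀ r, a r ∈ grid n N) ∧ ((pts k R a).ncard : ℝ) < x}.Finite ∧
    ((Set.ncard {a : ↥R → (Fin n → ℕ) | (∀ r, a r ∈ grid n N) ∧ ((pts k R a).ncard : ℝ) < x} : ℕ) : ℝ) ≤
      ((k * N + 1 : ℝ) ^ n + 1) ^ t * (((t : ℝ) ^ c / R.card) ^ (1 / (c - 1))) ^ R.card := by
  classical
  obtain ⟨W, hW⟩ : ∃ W, W = grid n (k * N + 1) := ⟨_, rfl⟩
  have hsub : {a : ↥R → (Fin n → ℕ) | (∀ r, a r ∈ grid n N) ∧ ((pts k R a).ncard : ℝ) < x} ⊆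
      (((W.powerset.filter (fun T => T.card ≤ t)).biUnion (fun T => Fintype.piFinset
        (fun r : ↥R => good k N T r.1)) : Finset (↥R → (Fin n → ℕ))) : Set _) := by
    rintro a ⟨ha, hax⟩
    have hpW : pts k R a ⊆ (W : Set (Fin n → ℕ)) := by
      rintro y ⟨r, j, hj, rfl⟩
      rw [hW, mem_coe]
      unfold grid
      rw [Fintype.mem_piFinset]
      intro i
      have h1 := mem_range.1 (Fintype.mem_piFinset.1 (ha r) i)
      have h2 := mem_range.1 (Fintype.mem_piFinset.1 (hR r.2) i)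
      rw [mem_range, Pi.add_apply, Pi.smul_apply, smul_eq_mul]
      have h3 : j * r.1 i ≤ (k - 1) * N := Nat.mul_le_mul (by omega) h2.le
      have h4 : (k - 1) * N + N = k * N := by
        obtain ⟨k', rfl⟩ : ∃ k', k = k' + 1 := ⟨k - 1, by omega⟩
        rw [Nat.add_sub_cancel]
        ring
      omega
    have hfin : (pts k R a).Finite := W.finite_toSet.subset hpW
    rw [coe_biUnion, Set.mem_iUnion₂]
    refine ⟨hfin.toFinset, ?_, ?_⟩
    · rw [mem_coe, mem_filter, mem_powerset]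
      refine ⟨fun y hy => by exact_mod_cast hpW (hfin.mem_toFinset.1 hy), ?_⟩
      rw [← Set.ncard_eq_toFinset_card _ hfin]
      have : ((pts k R a).ncard : ℝ) < t + 1 := hax.trans hx
      have : (pts k R a).ncard < t + 1 := by exact_mod_cast this
      omega
    · rw [mem_coe, Fintype.mem_piFinset]
      intro r
      unfold good
      rw [mem_filter]
      refine ⟨ha r, fun j hj => ?_⟩
      rw [hfin.mem_toFinset]
      exact ⟨r, j, hj, rfl⟩
  refine ⟨(finite_toSet _).subset hsub, ?_⟩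
  have h1 : Set.ncard {a : ↥R → (Fin n → ℕ) | (∀ r, a r ∈ grid n N) ∧ ((pts k R a).ncard : ℝ) < x} ≤
      ((W.powerset.filter (fun T => T.card ≤ t)).biUnion (fun T => Fintype.piFinset
        (fun r : ↥R => good k N T r.1))).card := by
    rw [← Set.ncard_coe_finset]
    exact Set.ncard_le_ncard hsub (finite_toSet _)
  have h2 : (((W.powerset.filter (fun T => T.card ≤ t)).biUnion (fun T => Fintype.piFinset
        (fun r : ↥R => good k N T r.1))).card : ℝ) ≤
      ∑ T ∈ W.powerset.filter (fun T => T.card ≤ t),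
        (((t : ℝ) ^ c / R.card) ^ (1 / (c - 1))) ^ R.card := by
    have h3 : (((W.powerset.filter (fun T => T.card ≤ t)).biUnion (fun T => Fintype.piFinset
        (fun r : ↥R => good k N T r.1))).card : ℝ) ≤
        ((∑ T ∈ W.powerset.filter (fun T => T.card ≤ t),
          (Fintype.piFinset (fun r : ↥R => good k N T r.1)).card : ℕ) : ℝ) := by
      exact_mod_cast card_biUnion_le
    refine h3.trans ?_
    push_cast
    refine sum_le_sum fun T hT => ?_
    rw [Fintype.card_piFinset]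
    have h4 : (∏ r : ↥R, (good k N T r.1).card) = ∏ r ∈ R, (good k N T r).card :=
      prod_coe_sort R (fun r => (good k N T r).card)
    rw [h4]
    push_cast
    refine prod_le_of_sum R hne (fun r => (good k N T r).card) hc1 ?_
    refine (sum_good hc1 hc2 hSD R T).trans (Real.rpow_le_rpow (Nat.cast_nonneg _) ?_ (by linarith))
    exact_mod_cast (mem_filter.1 hT).2
  have h5 : (((W.powerset.filter (fun T => T.card ≤ t)).card : ℕ) : ℝ) ≤
      ((k * N + 1 : ℝ) ^ n + 1) ^ t := by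
    have h6 := Pool.Agent.X163.PC.Rare.card_small W t
    rw [hW, card_grid] at h6
    rw [hW]
    exact_mod_cast h6
  calc ((Set.ncard {a : ↥R → (Fin n → ℕ) | (∀ r, a r ∈ grid n N) ∧
        ((pts k R a).ncard : ℝ) < x} : ℕ) : ℝ)
      ≤ (((W.powerset.filter (fun T => T.card ≤ t)).biUnion (fun T => Fintype.piFinset
        (fun r : ↥R => good k N T r.1))).card : ℝ) := by exact_mod_cast h1
    _ ≤ _ := h2
    _ ≤ _ := by
        rw [sum_const, nsmul_eq_mul]
        exact mul_le_mul_of_nonneg_right h5 (by positivity)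

/-- the number of the bad selections -/
theorem rare {k : ℕ} {c : ℝ} (hc1 : 1 < c) (hc2 : c ≤ 2) (hSD : SD k c) {n : ℕ} (hn : 0 < n)
    {κ ε δ : ℝ} (hκε : κ < ε) (hδ : 0 < δ) :
    ∀ᶠ N : ℕ in atTop, ∀ R : Finset (Fin n → ℕ), R ⊆ grid n N →
      (N : ℝ) ^ ((n : ℝ) - κ) ≤ (R.card : ℝ) →
      ((Set.ncard {a : ↥R → (Fin n → ℕ) | (∀ r, a r ∈ grid n N) ∧
        ((pts k R a).ncard : ℝ) < (N : ℝ) ^ ((n : ℝ) - ε)} : ℕ) : ℝ) ≤
        (((N : ℝ) ^ n) ^ R.card) ^ (1 - (c * ε - κ) / ((c - 1) * n) + δ) := by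
  have hT : ∀ s : ℝ, 0 < s → Tendsto (fun N : ℕ => (N : ℝ) ^ s) atTop atTop := fun s hs =>
    (tendsto_rpow_atTop hs).comp tendsto_natCast_atTop_atTop
  have hn0 : (0 : ℝ) < n := by exact_mod_cast hn
  have hc0 : 0 < c - 1 := by linarith
  filter_upwards [eventually_ge_atTop (2 * k + 2),
    (hT (ε - κ) (by linarith)).eventually_ge_atTop (2 / δ)] with N hN hE
  intro R hR hcard
  have hNR : 2 * (k : ℝ) + 2 ≤ N := by exact_mod_cast hN
  have hk0 : (0 : ℝ) ≤ k := Nat.cast_nonneg k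
  have hN0 : (0 : ℝ) < N := by linarith
  have hN1 : (1 : ℝ) ≤ N := by linarith
  have hR0 : (0 : ℝ) < R.card := lt_of_lt_of_le (by positivity) hcard
  have hne : R.Nonempty := by
    rw [← card_pos]
    exact_mod_cast hR0
  obtain ⟨t, ht⟩ : ∃ t, t = ⌊(N : ℝ) ^ ((n : ℝ) - ε)⌋₊ := ⟨_, rfl⟩
  have htu : (t : ℝ) ≤ (N : ℝ) ^ ((n : ℝ) - ε) := by
    rw [ht]
    exact Nat.floor_le (by positivity)
  have htl : (N : ℝ) ^ ((n : ℝ) - ε) < t + 1 := by
    rw [ht]
    exact Nat.lt_floor_add_one _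
  refine (union_bound hc1 hc2 hSD R hR hne _ t htl).2.trans ?_
  -- the number of the small sets
  have hA : ((k * N + 1 : ℝ) ^ n + 1) ^ t ≤ ((N : ℝ) ^ (n * δ)) ^ R.card := by
    have e1 : ((k * N + 1 : ℝ) ^ n + 1) ≤ (N : ℝ) ^ (2 * n) := by
      have e2 : (1 : ℝ) ≤ (k * N + 1 : ℝ) ^ n := one_le_pow₀ (by nlinarith)
      have e3 : (k * N + 1 : ℝ) ^ n + 1 ≤ 2 ^ n * (k * N + 1 : ℝ) ^ n := by
        have e4 : (2 : ℝ) ≤ 2 ^ n := by
          calc (2 : ℝ) = 2 ^ 1 := by norm_num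
            _ ≤ 2 ^ n := pow_le_pow_right₀ (by norm_num) hn
        nlinarith
      refine e3.trans ?_
      rw [← mul_pow, pow_mul]
      refine pow_le_pow_left₀ (by positivity) ?_ n
      nlinarith
    have h2t : ((2 * n * t : ℕ) : ℝ) ≤ n * δ * R.card := by
      push_cast
      have e4 : (N : ℝ) ^ ((n : ℝ) - κ) = (N : ℝ) ^ (ε - κ) * (N : ℝ) ^ ((n : ℝ) - ε) := by
        rw [← Real.rpow_add hN0]; ring_nf
      have e5 : 2 / δ * (N : ℝ) ^ ((n : ℝ) - ε) ≤ R.card := by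
        refine le_trans ?_ hcard
        rw [e4]
        exact mul_le_mul_of_nonneg_right hE (by positivity)
      calc 2 * (n : ℝ) * t ≤ 2 * n * (N : ℝ) ^ ((n : ℝ) - ε) :=
            mul_le_mul_of_nonneg_left htu (by positivity)
        _ = n * δ * (2 / δ * (N : ℝ) ^ ((n : ℝ) - ε)) := by field_simp
        _ ≤ _ := mul_le_mul_of_nonneg_left e5 (by positivity)
    calc ((k * N + 1 : ℝ) ^ n + 1) ^ t ≤ ((N : ℝ) ^ (2 * n)) ^ t :=
          pow_le_pow_left₀ (by positivity) e1 t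
      _ = (N : ℝ) ^ ((2 * n * t : ℕ) : ℝ) := by
          rw [Real.rpow_natCast, ← pow_mul]
      _ ≤ (N : ℝ) ^ (n * δ * R.card) := Real.rpow_le_rpow_of_exponent_le hN1 h2t
      _ = _ := by rw [Real.rpow_mul hN0.le, Real.rpow_natCast]
  have hB : ((t : ℝ) ^ c / R.card) ^ (1 / (c - 1)) ≤ (N : ℝ) ^ (n - (c * ε - κ) / (c - 1)) := by
    have e1 : (t : ℝ) ^ c / R.card ≤ (N : ℝ) ^ (c * (n - ε) - (n - κ)) := by
      rw [div_le_iff₀ hR0]
      calc (t : ℝ) ^ c ≤ ((N : ℝ) ^ ((n : ℝ) - ε)) ^ c :=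
            Real.rpow_le_rpow (Nat.cast_nonneg _) htu (by linarith)
        _ = (N : ℝ) ^ (c * (n - ε) - (n - κ)) * (N : ℝ) ^ ((n : ℝ) - κ) := by
            rw [← Real.rpow_mul hN0.le, ← Real.rpow_add hN0]
            ring_nf
        _ ≤ _ := mul_le_mul_of_nonneg_left hcard (by positivity)
    refine (Real.rpow_le_rpow (by positivity) e1 (by positivity)).trans (le_of_eq ?_)
    rw [← Real.rpow_mul hN0.le]
    congr 1
    field_simp
    ring
  calc ((k * N + 1 : ℝ) ^ n + 1) ^ t * (((t : ℝ) ^ c / R.card) ^ (1 / (c - 1))) ^ R.card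
      ≤ ((N : ℝ) ^ (n * δ)) ^ R.card * ((N : ℝ) ^ (n - (c * ε - κ) / (c - 1))) ^ R.card :=
        mul_le_mul hA (pow_le_pow_left₀ (by positivity) hB _) (by positivity) (by positivity)
    _ = _ := by
        rw [← mul_pow, ← Real.rpow_add hN0, ← Real.rpow_natCast, ← Real.rpow_mul hN0.le,
          ← pow_mul, ← Real.rpow_natCast (N : ℝ) (n * R.card), ← Real.rpow_mul hN0.le]
        congr 1
        push_cast
        field_simp
        ring

end Pool.Agent.X163.Ak.RareSel
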