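import Pool.Agent.TH404.AK.Sdc3

/-! Sums-differences with every exponent above the root of `7 x⁴ - 6 x³ - 21 x² + 24 x - 8`. -/

set_option autoImplicit false

open Finset Filter

namespace Pool.Agent.X163.Ak

open Pool.Agent.W904.AK Pool.Agent.W859.AK Pool.Agent.TH404.AK

theorem oracle_mono {b c : ℝ} (h : b ≤ c) (hb : ∃ T w, Oracle b T w) : ∃ T w, Oracle c T w := by
  obtain ⟨T, w, h1, h2, h3⟩ := hb
  refine ⟨T, w, h1, h2, fun Ω _ W _ _ p X D hp hd => (h3 Ω W p X D hp hd).trans ?_⟩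
  refine mul_le_mul_of_nonneg_right h (Finset.sum_nonneg fun t ht => ?_)
  exact mul_nonneg (h1 t ht) (H_nonneg hp _)

/-- the polynomial -/
def quart (x : ℝ) : ℝ := 7 * x ^ 4 - 6 * x ^ 3 - 21 * x ^ 2 + 24 * x - 8

theorem quart_mono {x y : ℝ} (hx : 3 / 2 ≤ x) (hxy : x ≤ y) : quart x ≤ quart y := by
  unfold quart
  obtain ⟨d, rfl⟩ : ∃ d, y = x + d := ⟨y - x, by ring⟩
  obtain ⟨e, rfl⟩ : ∃ e, x = 3 / 2 + e := ⟨x - 3 / 2, by ring⟩
  have hd : 0 ≤ d := by linarith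
  have he : 0 ≤ e := by linarith
  have h1 : 7 * (3 / 2 + e + d) ^ 4 - 6 * (3 / 2 + e + d) ^ 3 - 21 * (3 / 2 + e + d) ^ 2 +
      24 * (3 / 2 + e + d) - 8 - (7 * (3 / 2 + e) ^ 4 - 6 * (3 / 2 + e) ^ 3 - 21 * (3 / 2 + e) ^ 2 +
      24 * (3 / 2 + e) - 8) =
      d * (15 + 93 * e + 108 * e ^ 2 + 28 * e ^ 3 + d * (93 / 2 + 108 * e + 42 * e ^ 2) +
        d ^ 2 * (36 + 28 * e) + 7 * d ^ 3) := by ring
  have h2 : 0 ≤ d * (15 + 93 * e + 108 * e ^ 2 + 28 * e ^ 3 + d * (93 / 2 + 108 * e + 42 * e ^ 2) +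
        d ^ 2 * (36 + 28 * e) + 7 * d ^ 3) := by positivity
  linarith

theorem oracle_root {c : ℝ} (hc : 3 / 2 ≤ c) (hq : 0 < quart c) : ∃ T w, Oracle c T w := by
  rcases le_total (167108 / 100000) c with h | h
  · exact oracle_mono h oracle2
  by_contra hno
  obtain ⟨S, hS⟩ : ∃ S : Set ℝ, S = {b | c ≤ b ∧ b ≤ 167108 / 100000 ∧ ∃ T w, Oracle b T w} :=
    ⟨_, rfl⟩
  have hne : S.Nonempty := ⟨167108 / 100000, by rw [hS]; exact ⟨h, le_rfl, oracle2⟩⟩
  have hbd : BddBelow S := ⟨c, fun b hb => by rw [hS] at hb; exact hb.1⟩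
  obtain ⟨s, hs⟩ : ∃ s, s = sInf S := ⟨_, rfl⟩
  have hcs : c ≤ s := by rw [hs]; exact le_csInf hne fun b hb => by rw [hS] at hb; exact hb.1
  have hqs : 0 < quart s := hq.trans_le (quart_mono hc hcs)
  have hs2 : s ≤ 167108 / 100000 := by
    rw [hs]; exact csInf_le hbd (by rw [hS]; exact ⟨h, le_rfl, oracle2⟩)
  have hcont : Continuous fun v : ℝ × ℝ => N3 v.1 v.2 + (v.1 - 1) ^ 3 * (4 - 4 * v.2) := by
    unfold N3; fun_prop
  have hneg : N3 s s + (s - 1) ^ 3 * (4 - 4 * s) < 0 := by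
    have : N3 s s + (s - 1) ^ 3 * (4 - 4 * s) = -quart s := by unfold N3 quart; ring
    rw [this]; linarith
  have hev : ∀ᶠ v : ℝ × ℝ in nhds (s, s), N3 v.1 v.2 + (v.1 - 1) ^ 3 * (4 - 4 * v.2) < 0 :=
    hcont.continuousAt.eventually (gt_mem_nhds hneg)
  obtain ⟨ε, hε, hball⟩ := Metric.eventually_nhds_iff.1 hev
  obtain ⟨b, hb, hbs⟩ := exists_lt_of_csInf_lt hne (show sInf S < s + ε by rw [← hs]; linarith)
  have hsb : s ≤ b := by rw [hs]; exact csInf_le hbd hb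
  rw [hS] at hb
  obtain ⟨hb1, hb2, hb3⟩ := hb
  obtain ⟨x, hx⟩ : ∃ x, x = max c (s - ε / 2) := ⟨_, rfl⟩
  have hx1 : c ≤ x := by rw [hx]; exact le_max_left _ _
  have hx2 : s - ε / 2 ≤ x := by rw [hx]; exact le_max_right _ _
  have hx3 : x ≤ s := by rw [hx]; exact max_le hcs (by linarith)
  have hgood : Good3 b x := by
    refine ⟨by linarith, by linarith, by linarith, by linarith, ?_⟩
    refine hball (y := (b, x)) ?_
    rw [Prod.dist_eq, max_lt_iff]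
    constructor
    · rw [Real.dist_eq, abs_lt]; constructor <;> simp only <;> linarith
    · rw [Real.dist_eq, abs_lt]; constructor <;> simp only <;> linarith
  have hox := onestep3 hgood hb3
  have hxS : x ∈ S := by rw [hS]; exact ⟨hx1, by linarith, hox⟩
  have hsx : s ≤ x := by rw [hs]; exact csInf_le hbd hxS
  have hxs : x = s := le_antisymm hx3 hsx
  have hxc : x = c := by
    rcases le_total c (s - ε / 2) with h1 | h1
    · rw [max_eq_right h1] at hx; linarith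
    · rw [max_eq_left h1] at hx; exact hx
  exact hno (hxc ▸ hox)

/-- **Sums-differences with every exponent `c` above the root `1.66958684…` of
`7 x⁴ - 6 x³ - 21 x² + 24 x - 8`.** -/
theorem sdc_root {c : ℝ} (hc : 3 / 2 ≤ c) (hq : 0 < 7 * c ^ 4 - 6 * c ^ 3 - 21 * c ^ 2 + 24 * c - 8) :
    SDc c := by
  obtain ⟨T, w, hO⟩ := oracle_root hc hq
  exact Oracle.sdc (by linarith) hO

end Pool.Agent.X163.Ak
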